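import Pool.Agent.X17.HW.Hua
import Pool.Agent.TH181.MW.Cov

/-! # Hausdorff dimension of the exceptional set of leading coefficients -/

set_option autoImplicit false

open Finset MeasureTheory

namespace Pool.Agent.X17.HW

open Pool.Agent.W928.MW (e sm e_add e_norm e_sub_re e_cont sm_le ev_pow ev_log)
open Pool.Agent.TH181.MW

/-- leading coefficients bad at scale `2 ^ i` -/
def BT (k : ℕ) (θ : ℝ) (j : ℤ) (i : ℕ) : Set ℝ :=
  {t : ℝ | t ∈ Set.Icc (j : ℝ) ((j : ℝ) + 1) ∧ ∃ M : ℕ, M ≤ 2 ^ i ∧ 2 ^ i ≤ 2 * M ∧ ∃ ξ : ℝ,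
    (M : ℝ) ^ θ < ‖sm k M t ξ‖}

theorem cover (s k : ℕ) (β θ : ℝ) (hθ : 0 ≤ θ) (hM : Mo s k β)
    (ε' : ℝ) (hε' : 0 < ε') (j : ℤ) :
    ∃ i0 : ℕ, ∀ i : ℕ, i0 ≤ i → ∃ S : Finset ℝ,
      (S.card : ℝ) ≤ ((2 : ℝ) ^ i) ^ (1 + β + k - 2 * s * θ + (2 * s + 2) * ε') ∧
      BT k θ j i ⊆ ⋃ x ∈ S, Set.Icc x (x + ((2 : ℝ) ^ i) ^ (-(k : ℝ))) := by
  obtain ⟨C, hC0, hC⟩ := hM ε' hε'
  obtain ⟨i1, h1⟩ := ev_log ε' hε' ((2 : ℝ) ^ θ * (1 + 2 * Real.pi * 2 ^ k))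
  obtain ⟨i3, h3⟩ := ev_pow ε' hε' (3 * (s + 1) * C)
  refine ⟨i1 + i3, fun i hi => ?_⟩
  have g1 := h1 i (by omega)
  have g3 := h3 i (by omega)
  set X : ℝ := (2 : ℝ) ^ i with hX
  have hX1 : (1 : ℝ) ≤ X := one_le_pow₀ (by norm_num)
  have hX0 : (0 : ℝ) < X := by positivity
  have hNX : (((2 ^ i : ℕ) : ℕ) : ℝ) = X := by push_cast; rfl
  have hlog0 : 0 ≤ Real.log X := Real.log_nonneg hX1
  set μ : ℝ := X ^ (θ - ε') with hμ
  have hμ0 : 0 < μ := by positivity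
  set δ : ℝ := X ^ (-(k : ℝ)) with hδ
  have hδ' : δ = 1 / X ^ k := by
    rw [hδ, Real.rpow_neg hX0.le, Real.rpow_natCast, one_div]
  have hδ0 : 0 < δ := by positivity
  have hδ1 : δ ≤ 1 := by
    rw [hδ', div_le_one (by positivity)]
    exact one_le_pow₀ hX1
  set F : Set ℝ := {t : ℝ | t ∈ Set.Icc (((j - 1 : ℤ)) : ℝ) (((j + 2 : ℤ)) : ℝ) ∧
    ∃ ξ : ℝ, μ ≤ ‖sm k (2 ^ i) t ξ‖} with hF
  have key2 : ∀ t ∈ BT k θ j i, ∀ t' : ℝ, |t' - t| ≤ δ → t' ∈ F := by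
    rintro t ⟨ht1, M, hM1, hM2, ξ, hlt⟩ t' htt
    have htt' := abs_le.mp htt
    refine ⟨⟨by push_cast; linarith [ht1.1, htt'.1], by push_cast; linarith [ht1.2, htt'.2]⟩, ?_⟩
    by_contra hcon
    push Not at hcon
    have h5 : ∀ m : ℕ, m ≤ 2 ^ i → ∀ ξ : ℝ, ‖sm k m t' ξ‖ ≤ (4 + 4 * Real.log X) * μ := by
      intro m hm ξ
      have := S_MAX_t k (2 ^ i) m t' μ Nat.one_le_two_pow hm (fun η => (hcon η).le) ξ
      rwa [hNX] at this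
    have h6 := shift_le k (2 ^ i) M t t' ξ ((4 + 4 * Real.log X) * μ) Nat.one_le_two_pow hM1 (by positivity)
      (by rw [hNX, ← hδ', abs_sub_comm]; exact htt) (fun m hm => h5 m hm ξ)
    have h7 : X / 2 ≤ (M : ℝ) := by
      have : ((2 ^ i : ℕ) : ℝ) ≤ ((2 * M : ℕ) : ℝ) := by exact_mod_cast hM2
      rw [hNX] at this
      push_cast at this
      linarith
    have h8 : (X / 2) ^ θ ≤ (M : ℝ) ^ θ := Real.rpow_le_rpow (by positivity) h7 hθ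
    have h9 : (X / 2) ^ θ = X ^ θ / (2 : ℝ) ^ θ := Real.div_rpow hX0.le (by norm_num) θ
    have h10 : (1 + 2 * Real.pi * 2 ^ k) * ((4 + 4 * Real.log X) * μ) ≤ X ^ θ / (2 : ℝ) ^ θ := by
      rw [le_div_iff₀ (by positivity)]
      have h11 : X ^ θ = X ^ ε' * μ := by
        rw [hμ, ← Real.rpow_add hX0]
        congr 1
        ring
      rw [h11]
      calc (1 + 2 * Real.pi * 2 ^ k) * ((4 + 4 * Real.log X) * μ) * (2 : ℝ) ^ θ
          = ((2 : ℝ) ^ θ * (1 + 2 * Real.pi * 2 ^ k) * (4 + 4 * Real.log X)) * μ := by ring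
        _ ≤ X ^ ε' * μ := mul_le_mul_of_nonneg_right g1 hμ0.le
    have h12 : (M : ℝ) ^ θ < (M : ℝ) ^ θ := by
      calc (M : ℝ) ^ θ < ‖sm k M t ξ‖ := hlt
        _ ≤ (1 + 2 * Real.pi * 2 ^ k) * ((4 + 4 * Real.log X) * μ) := h6
        _ ≤ X ^ θ / (2 : ℝ) ^ θ := h10
        _ = (X / 2) ^ θ := h9.symm
        _ ≤ (M : ℝ) ^ θ := h8
    exact lt_irrefl _ h12
  -- measure of F
  have h5 := meas_le s k (2 ^ i) (j - 1) (j + 2) μ (by omega) hμ0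
  rw [hNX] at h5
  have hJ := hC (2 ^ i) Nat.one_le_two_pow
  rw [hNX] at hJ
  set V : ℝ := 3 * (s + 1) * C * (X * X ^ (β + ε')) / μ ^ (2 * s) with hV
  have h6 : volume F ≤ ENNReal.ofReal V := by
    refine h5.trans (ENNReal.ofReal_le_ofReal ?_)
    rw [hV]
    apply div_le_div_of_nonneg_right _ (by positivity)
    have a0 : (((j + 2 : ℤ)) : ℝ) - (((j - 1 : ℤ)) : ℝ) = 3 := by push_cast; ring
    rw [a0]
    have a1 : (s : ℝ) * X + 1 ≤ (s + 1) * X := by nlinarith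
    calc ((s : ℝ) * X + 1) * (3 * (J s k (2 ^ i) : ℝ)) ≤ ((s + 1) * X) * (3 * (C * X ^ (β + ε'))) := by
          apply mul_le_mul a1 _ (by positivity) (by positivity)
          linarith
      _ = _ := by ring
  obtain ⟨S, hS1, hS2⟩ := S_COV_t (BT k θ j i) F δ V (j : ℝ) ((j : ℝ) + 1) hδ0 (by positivity)
    (fun x hx => hx.1) key2 h6
  refine ⟨S, hS1.trans ?_, hS2⟩
  have h7 : V / δ = (3 * (s + 1) * C) * X ^ (1 + β + k - 2 * s * θ + (2 * s + 1) * ε') := by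
    have e1 : μ ^ (2 * s) = X ^ ((θ - ε') * ((2 * s : ℕ) : ℝ)) := by
      rw [hμ, ← Real.rpow_natCast, ← Real.rpow_mul hX0.le]
    have e2 : X ^ (1 + β + k - 2 * s * θ + (2 * s + 1) * ε') =
        X * X ^ (β + ε') / X ^ ((θ - ε') * ((2 * s : ℕ) : ℝ)) / X ^ (-(k : ℝ)) := by
      have f1 : X * X ^ (β + ε') = X ^ (1 + (β + ε')) := by
        rw [Real.rpow_add hX0 1 (β + ε'), Real.rpow_one]
      rw [f1, ← Real.rpow_sub hX0, ← Real.rpow_sub hX0]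
      congr 1
      push_cast
      ring
    rw [hV, e2, e1, hδ]
    ring
  rw [h7]
  calc (3 * (s + 1) * C) * X ^ (1 + β + k - 2 * s * θ + (2 * s + 1) * ε')
      ≤ X ^ ε' * X ^ (1 + β + k - 2 * s * θ + (2 * s + 1) * ε') :=
        mul_le_mul_of_nonneg_right g3 (by positivity)
    _ = X ^ (1 + β + k - 2 * s * θ + (2 * s + 2) * ε') := by
        rw [← Real.rpow_add hX0]
        congr 1
        ring

/-- the inequality of `H_k(η)` at `t`, at all `N`, `ξ` and `q` -/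
def HoldsT (k : ℕ) (η ε C t : ℝ) : Prop :=
  ∀ N q : ℕ, 1 ≤ N → 1 ≤ q → ∀ ξ : ℝ, ‖sm k N t ξ‖ ≤ C * (N : ℝ) ^ (1 + ε) *
    (1 / (q : ℝ) + 1 / (N : ℝ) + (q : ℝ) / (N : ℝ) ^ k) ^ η

theorem main_geT (k N q : ℕ) (η ε : ℝ) (hη : 0 ≤ η) (hN : 1 ≤ N) :
    (N : ℝ) ^ (1 - η + ε) ≤ (N : ℝ) ^ (1 + ε) *
      (1 / (q : ℝ) + 1 / (N : ℝ) + (q : ℝ) / (N : ℝ) ^ k) ^ η := by
  have hN' : (1 : ℝ) ≤ (N : ℝ) := by exact_mod_cast hN
  have h1 : (N : ℝ) ^ (1 - η + ε) = (N : ℝ) ^ (1 + ε) * (1 / (N : ℝ)) ^ η := by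
    rw [Real.div_rpow (by norm_num) (by positivity), Real.one_rpow, mul_one_div, ← Real.rpow_sub (by positivity)]
    congr 1
    ring
  rw [h1]
  apply mul_le_mul_of_nonneg_left _ (by positivity)
  apply Real.rpow_le_rpow (by positivity) _ hη
  have h2 : 0 ≤ 1 / (q : ℝ) + (q : ℝ) / (N : ℝ) ^ k := by positivity
  linarith

theorem bad_subT (k : ℕ) (η ε : ℝ) (hη : 0 ≤ η) (hη1 : η ≤ 1) (hε : 0 ≤ ε) (t : ℝ)
    (ht : ¬ ∃ C : ℝ, HoldsT k η ε C t) : ∀ i1 : ℕ, ∃ i : ℕ, i1 ≤ i ∧ t ∈ BT k (1 - η + ε) ⌊t⌋ i := by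
  intro i1
  by_contra hcon
  push Not at hcon
  apply ht
  refine ⟨(2 : ℝ) ^ i1 + 1, ?_⟩
  intro N q hN hq ξ
  have hN' : (1 : ℝ) ≤ (N : ℝ) := by exact_mod_cast hN
  set R : ℝ := (N : ℝ) ^ (1 + ε) *
      (1 / (q : ℝ) + 1 / (N : ℝ) + (q : ℝ) / (N : ℝ) ^ k) ^ η with hR
  have h1 : (N : ℝ) ^ (1 - η + ε) ≤ R := main_geT k N q η ε hη hN
  have h2 : 1 ≤ (N : ℝ) ^ (1 - η + ε) := Real.one_le_rpow hN' (by linarith)
  have h3 : ((2 : ℝ) ^ i1 + 1) * (N : ℝ) ^ (1 + ε) *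
      (1 / (q : ℝ) + 1 / (N : ℝ) + (q : ℝ) / (N : ℝ) ^ k) ^ η = ((2 : ℝ) ^ i1 + 1) * R := by
    rw [hR]; ring
  rw [h3]
  have hp : (0 : ℝ) < (2 : ℝ) ^ i1 := by positivity
  rcases le_total N (2 ^ i1) with hN2 | hN2
  · have h4 : (N : ℝ) ≤ (2 : ℝ) ^ i1 := by exact_mod_cast hN2
    refine (sm_le k N t ξ).trans ?_
    nlinarith
  · obtain ⟨i, hi1, hi2⟩ : ∃ i : ℕ, N ≤ 2 ^ i ∧ 2 ^ i ≤ 2 * N := by
      refine ⟨Nat.log 2 N + 1, (Nat.lt_pow_succ_log_self (by norm_num) N).le, ?_⟩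
      have := Nat.pow_log_le_self 2 (show N ≠ 0 by omega)
      rw [pow_succ]
      omega
    have hii : i1 ≤ i := by
      have : 2 ^ i1 ≤ 2 ^ i := hN2.trans hi1
      exact (Nat.pow_le_pow_iff_right (by norm_num)).mp this
    have h5 := hcon i hii
    have h6 : ‖sm k N t ξ‖ ≤ (N : ℝ) ^ (1 - η + ε) := by
      by_contra h7
      push Not at h7
      apply h5
      exact ⟨⟨Int.floor_le t, (Int.lt_floor_add_one t).le⟩, N, hi1, hi2, ξ, h7⟩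
    nlinarith

theorem dim_genT (s k : ℕ) (β η ε : ℝ) (hk : 1 ≤ k) (hη : 0 ≤ η) (hη1 : η ≤ 1)
    (hε : 0 ≤ ε) (hM : Mo s k β) :
    dimH {t : ℝ | ¬ ∃ C : ℝ, HoldsT k η ε C t} ≤
      ENNReal.ofReal ((1 + β + k - 2 * s * (1 - η + ε)) / k) := by
  set A : ℝ := 1 + β + k - 2 * s * (1 - η + ε) with hA
  have hk0 : (0 : ℝ) < k := by
    have : (1 : ℝ) ≤ k := by exact_mod_cast hk
    linarith
  have hsub : {t : ℝ | ¬ ∃ C : ℝ, HoldsT k η ε C t} ⊆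
      ⋃ j : ℤ, {t : ℝ | ∀ i1 : ℕ, ∃ i : ℕ, i1 ≤ i ∧ t ∈ BT k (1 - η + ε) j i} := by
    intro t ht
    rw [Set.mem_iUnion]
    exact ⟨⌊t⌋, bad_subT k η ε hη hη1 hε t ht⟩
  have hfin : ENNReal.ofReal (max (A / k) 0) ≤ ENNReal.ofReal (A / k) := by
    rw [ENNReal.ofReal_max, ENNReal.ofReal_zero, max_eq_left zero_le]
  refine le_trans ?_ hfin
  refine (dimH_mono hsub).trans ?_
  rw [dimH_iUnion]
  apply iSup_le
  intro j
  apply ENNReal.le_of_forall_pos_le_add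
  intro ρ hρ _
  have hρ' : (0 : ℝ) < (ρ : ℝ) := by exact_mod_cast hρ
  set D : ℝ := max (A / k) 0 + ρ with hD
  have hD0 : 0 < D := by
    have := le_max_right (A / k) 0
    rw [hD]; linarith
  set ε' : ℝ := k * ρ / (2 * (2 * s + 2)) with hε'def
  have hε' : 0 < ε' := by positivity
  have h1 := S_DIMG_t (A + (2 * s + 2) * ε') k D (BT k (1 - η + ε) j) hk0 hD0
    (by
      have h2 := le_max_left (A / k) 0
      have h3 : (2 * (s : ℝ) + 2) * ε' = k * ρ / 2 := by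
        rw [hε'def]
        field_simp
      have h4 : A ≤ k * max (A / k) 0 := by
        calc A = k * (A / k) := by field_simp
          _ ≤ _ := mul_le_mul_of_nonneg_left h2 hk0.le
      rw [h3, hD, mul_add]
      have h5 : 0 < (k : ℝ) * ρ := by positivity
      linarith)
    (cover s k β (1 - η + ε) (by linarith) hM ε' hε' j)
  refine h1.trans (le_of_eq ?_)
  rw [hD, ENNReal.ofReal_add (le_max_right _ _) hρ'.le, ENNReal.ofReal_coe_nnreal]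

theorem dim_T (k i : ℕ) (hi : 2 ≤ i) (hik : i ≤ k) (η ε : ℝ) (hη : 0 ≤ η) (hη1 : η ≤ 1) (hε : 0 ≤ ε) :
    dimH {t : ℝ | ¬ ∃ C : ℝ, HoldsT k η ε C t} ≤
      ENNReal.ofReal (1 - (i - (2 ^ i + 2) * (η - ε)) / k) := by
  have h := dim_genT (2 ^ (i - 1) + 1) k _ η ε (by omega) hη hη1 hε (Mo_main k i hi hik)
  refine h.trans (le_of_eq ?_)
  congr 1
  have hk0 : (k : ℝ) ≠ 0 := by
    have : k ≠ 0 := by omega
    exact_mod_cast this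
  have hp : 2 * 2 ^ (i - 1) = 2 ^ i := by
    rw [← pow_succ']
    congr 1
    omega
  have hpr : 2 * (2 : ℝ) ^ (i - 1) = 2 ^ i := by exact_mod_cast hp
  rw [← hpr]
  push_cast
  field_simp
  ring

end Pool.Agent.X17.HW
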