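import Pool.Agent.X17.HW.Dim

/-! # Measure, almost every leading coefficient -/

set_option autoImplicit false

open Finset MeasureTheory

namespace Pool.Agent.X17.HW

open Pool.Agent.W928.MW (e sm e_add e_norm e_sub_re e_cont sm_le ev_pow ev_log)
open Pool.Agent.TH181.MW

theorem meas_T (k i : ℕ) (hi : 2 ≤ i) (hik : i ≤ k) (η ε ρ : ℝ) (hη : 0 ≤ η) (hρ : 0 < ρ) :
    ∃ C : ℝ, ∀ N : ℕ, 1 ≤ N →
      volume {t : ℝ | t ∈ Set.Icc (0 : ℝ) 1 ∧ ¬ ∀ q : ℕ, 1 ≤ q → ∀ ξ : ℝ, ‖sm k N t ξ‖ ≤ 1 * (N : ℝ) ^ (1 + ε) *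
        (1 / (q : ℝ) + 1 / (N : ℝ) + (q : ℝ) / (N : ℝ) ^ k) ^ η} ≤
      ENNReal.ofReal (C * (N : ℝ) ^ ((2 ^ i + 2) * (η - ε) - i + ρ)) := by
  obtain ⟨C1, hC1, h1⟩ := Mo_main k i hi hik ρ hρ
  set s : ℕ := 2 ^ (i - 1) + 1 with hs
  refine ⟨((s : ℝ) + 1) * C1, ?_⟩
  intro N hN
  have hN1 : (1 : ℝ) ≤ N := by exact_mod_cast hN
  have hN0 : (0 : ℝ) < N := by linarith
  set lam : ℝ := (N : ℝ) ^ (1 - η + ε) with hlam
  have hlam0 : 0 < lam := by positivity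
  have hsub : {t : ℝ | t ∈ Set.Icc (0 : ℝ) 1 ∧ ¬ ∀ q : ℕ, 1 ≤ q → ∀ ξ : ℝ, ‖sm k N t ξ‖ ≤ 1 * (N : ℝ) ^ (1 + ε) *
        (1 / (q : ℝ) + 1 / (N : ℝ) + (q : ℝ) / (N : ℝ) ^ k) ^ η} ⊆
      {t : ℝ | t ∈ Set.Icc (((0 : ℤ)) : ℝ) (((1 : ℤ)) : ℝ) ∧ ∃ ξ : ℝ, lam ≤ ‖sm k N t ξ‖} := by
    rintro t ⟨ht, hbad⟩
    push Not at hbad
    obtain ⟨q, _, ξ, hξ⟩ := hbad
    refine ⟨by simpa using ht, ξ, ?_⟩
    rw [one_mul] at hξ
    exact (main_geT k N q η ε hη hN).trans hξ.le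
  refine (measure_mono hsub).trans ((meas_le s k N 0 1 lam (by norm_num) hlam0).trans ?_)
  apply ENNReal.ofReal_le_ofReal
  have hJ := h1 N hN
  have a1 : (s : ℝ) * N + 1 ≤ (s + 1) * N := by linarith
  have hp : 2 * 2 ^ (i - 1) = 2 ^ i := by
    rw [← pow_succ']
    congr 1
    omega
  have hpr : 2 * (2 : ℝ) ^ (i - 1) = 2 ^ i := by exact_mod_cast hp
  have e1 : lam ^ (2 * s) = (N : ℝ) ^ ((1 - η + ε) * ((2 * s : ℕ) : ℝ)) := by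
    rw [hlam, ← Real.rpow_natCast, ← Real.rpow_mul hN0.le]
  rw [div_le_iff₀ (by positivity)]
  calc ((s : ℝ) * (N : ℝ) + 1) * (((((1 : ℤ)) : ℝ) - (((0 : ℤ)) : ℝ)) * (J s k N : ℝ))
      ≤ ((s + 1) * N) * (C1 * (N : ℝ) ^ ((2 : ℝ) ^ i + 1 - i + ρ)) := by
        apply mul_le_mul a1 _ (by positivity) (by positivity)
        simpa using hJ
    _ = (((s : ℝ) + 1) * C1) * ((N : ℝ) * (N : ℝ) ^ ((2 : ℝ) ^ i + 1 - i + ρ)) := by ring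
    _ = (((s : ℝ) + 1) * C1) * ((N : ℝ) ^ ((2 ^ i + 2) * (η - ε) - i + ρ) * lam ^ (2 * s)) := by
        congr 1
        rw [e1, ← Real.rpow_add hN0]
        have e2 : (N : ℝ) * (N : ℝ) ^ ((2 : ℝ) ^ i + 1 - i + ρ) = (N : ℝ) ^ (1 + ((2 : ℝ) ^ i + 1 - i + ρ)) := by
          rw [Real.rpow_add hN0 1, Real.rpow_one]
        rw [e2]
        congr 1
        rw [hs, ← hpr]
        push_cast
        ring
    _ = _ := by ring

theorem vol_zero {s : Set ℝ} (h : dimH s < 1) : volume s = 0 := by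
  have h1 := hausdorffMeasure_of_dimH_lt (s := s) (d := 1) (by simpa using h)
  rw [← hausdorffMeasure_real]
  simpa using h1

theorem Holds_mono (k : ℕ) (η ε ε' C t : ℝ) (hε : ε ≤ ε') (h : HoldsT k η ε C t) :
    HoldsT k η ε' |C| t := by
  intro N q hN hq ξ
  have hN1 : (1 : ℝ) ≤ N := by exact_mod_cast hN
  refine (h N q hN hq ξ).trans ?_
  have h1 : (N : ℝ) ^ (1 + ε) ≤ (N : ℝ) ^ (1 + ε') := Real.rpow_le_rpow_of_exponent_le hN1 (by linarith)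
  have h2 : 0 ≤ (1 / (q : ℝ) + 1 / (N : ℝ) + (q : ℝ) / (N : ℝ) ^ k) ^ η := by positivity
  apply mul_le_mul_of_nonneg_right _ h2
  apply mul_le_mul (le_abs_self C) h1 (by positivity) (abs_nonneg C)

theorem ae_T (k : ℕ) (hk : 2 ≤ k) (η : ℝ) (hη : 0 ≤ η) (hη1 : η ≤ 1 / 3) :
    ∀ᵐ t : ℝ, ∀ ε : ℝ, 0 < ε → ∃ C : ℝ, HoldsT k η ε C t := by
  have h1 : ∀ n : ℕ, ∀ᵐ t : ℝ, ∃ C : ℝ, HoldsT k η (1 / ((n : ℝ) + 1)) C t := by
    intro n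
    rw [ae_iff]
    apply vol_zero
    have hn : (0 : ℝ) < 1 / ((n : ℝ) + 1) := by positivity
    refine lt_of_le_of_lt (dim_T k 2 le_rfl hk η (1 / ((n : ℝ) + 1)) hη (by linarith) hn.le) ?_
    rw [← ENNReal.ofReal_one, ENNReal.ofReal_lt_ofReal_iff one_pos]
    have hk0 : (0 : ℝ) < k := by
      have : 0 < k := by omega
      exact_mod_cast this
    have h2 : 0 < (((2 : ℕ) : ℝ) - (2 ^ 2 + 2) * (η - 1 / ((n : ℝ) + 1))) / k := by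
      apply div_pos _ hk0
      push_cast
      linarith
    linarith
  have h2 := ae_all_iff.mpr h1
  filter_upwards [h2] with t ht ε hε
  obtain ⟨n, hn⟩ := exists_nat_one_div_lt hε
  obtain ⟨C, hC⟩ := ht n
  exact ⟨|C|, Holds_mono k η _ ε C t hn.le hC⟩

theorem dim_log (k : ℕ) (hk : 4 ≤ k) :
    dimH {t : ℝ | ¬ ∃ C : ℝ, HoldsT k (1 / (k : ℝ)) 0 C t} ≤
      ENNReal.ofReal (1 - ((Nat.log 2 k : ℝ) - 1 - 2 / (k : ℝ)) / k) := by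
  have hk4 : (4 : ℝ) ≤ k := by exact_mod_cast hk
  have hk0 : (0 : ℝ) < k := by linarith
  have h1 : 2 ≤ Nat.log 2 k := Nat.le_log_of_pow_le (by norm_num) (by omega)
  have h2 : Nat.log 2 k ≤ k := Nat.log_le_self 2 k
  have h3 : 1 / (k : ℝ) ≤ 1 := by rw [div_le_one hk0]; linarith
  refine (dim_T k (Nat.log 2 k) h1 h2 (1 / (k : ℝ)) 0 (by positivity) h3 le_rfl).trans ?_
  apply ENNReal.ofReal_le_ofReal
  have h4 : (2 : ℝ) ^ (Nat.log 2 k) ≤ k := by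
    exact_mod_cast Nat.pow_log_le_self 2 (show k ≠ 0 by omega)
  have h5 : (2 ^ (Nat.log 2 k) + 2) * (1 / (k : ℝ) - 0) ≤ 1 + 2 / k := by
    rw [sub_zero, mul_one_div, div_le_iff₀ hk0]
    field_simp
    linarith
  have h6 : ((Nat.log 2 k : ℝ) - 1 - 2 / (k : ℝ)) / k ≤
      ((Nat.log 2 k : ℝ) - (2 ^ (Nat.log 2 k) + 2) * (1 / (k : ℝ) - 0)) / k := by
    apply div_le_div_of_nonneg_right _ hk0.le
    linarith
  linarith

end Pool.Agent.X17.HW
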