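import Pool.Agent.X17.HW.Six

/-! # Hua's inequality for the pair of degrees `1, k` -/

set_option autoImplicit false

open Finset MeasureTheory

namespace Pool.Agent.X17.HW

open Pool.Agent.TH181.MW

/-- `J ≪ N ^ (β + ρ)` for every `ρ > 0` -/
def Mo (s k : ℕ) (β : ℝ) : Prop := ∀ ρ : ℝ, 0 < ρ → ∃ C : ℝ, 0 < C ∧ ∀ N : ℕ, 1 ≤ N →
  (J s k N : ℝ) ≤ C * (N : ℝ) ^ (β + ρ)

theorem exists_D (L k : ℕ) (δ : ℝ) (hδ : 0 < δ) : ∃ C : ℝ, 0 < C ∧ ∀ N : ℕ, 1 ≤ N → ∃ D : ℕ,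
    (D : ℝ) ≤ C * (N : ℝ) ^ δ ∧
    ∀ c : ℤ, c ≠ 0 → c.natAbs ≤ L * N ^ k → c.natAbs.divisors.card ≤ D := by
  obtain ⟨C0, hC0, h0⟩ := Pool.Agent.Helper112.divisor_bound (δ / (k + 1)) (by positivity)
  set δ' : ℝ := δ / (k + 1) with hδ'
  have hδ'0 : 0 < δ' := by positivity
  refine ⟨C0 * ((L : ℝ) + 1) ^ δ', by positivity, fun N hN => ?_⟩
  have hN1 : (1 : ℝ) ≤ N := by exact_mod_cast hN
  have hN0 : (0 : ℝ) < N := by linarith
  set Y : ℝ := C0 * (((L * N ^ k : ℕ) : ℝ)) ^ δ' with hY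
  have hY0 : 0 ≤ Y := by positivity
  refine ⟨⌊Y⌋₊, (Nat.floor_le hY0).trans ?_, ?_⟩
  · rw [hY, mul_assoc]
    apply mul_le_mul_of_nonneg_left _ hC0.le
    have e1 : (((L * N ^ k : ℕ) : ℝ)) = (L : ℝ) * ((N : ℝ) ^ k) := by push_cast; ring
    rw [e1, Real.mul_rpow (by positivity) (by positivity)]
    apply mul_le_mul _ _ (by positivity) (by positivity)
    · apply Real.rpow_le_rpow (by positivity) (by linarith) hδ'0.le
    · rw [← Real.rpow_natCast, ← Real.rpow_mul hN0.le]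
      apply Real.rpow_le_rpow_of_exponent_le hN1
      rw [hδ', mul_div_assoc', div_le_iff₀ (by positivity)]
      nlinarith
  · intro c hc hcL
    apply Nat.le_floor
    have h1 : 1 ≤ c.natAbs := Int.natAbs_pos.mpr hc
    refine (h0 _ h1).trans ?_
    rw [hY]
    apply mul_le_mul_of_nonneg_left _ hC0.le
    apply Real.rpow_le_rpow (by positivity) _ hδ'0.le
    exact_mod_cast hcL

theorem tup_card (s N : ℕ) : (tup s N).card = N ^ s := by
  unfold tup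
  rw [Fintype.card_piFinset]
  simp

theorem EE_card (s N : ℕ) : (EE (s + 1) N).card ≤ N ^ (2 * s + 1) := by
  classical
  have h1 : (EE (s + 1) N).card ≤ (tup (s + 1) N ×ˢ tup s N).card := by
    apply Finset.card_le_card_of_injOn
      (fun z : (Fin (s + 1) → ℕ) × (Fin (s + 1) → ℕ) => (z.1, Fin.tail z.2))
    · rintro ⟨z, w⟩ h
      rw [Finset.mem_coe, EE, Finset.mem_filter, Finset.mem_product] at h
      rw [Finset.mem_coe, Finset.mem_product]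
      refine ⟨h.1.1, ?_⟩
      have h2 := h.1.2
      unfold tup at h2 ⊢
      rw [Fintype.mem_piFinset] at h2 ⊢
      intro i
      exact h2 i.succ
    · rintro ⟨z, w⟩ h ⟨z', w'⟩ h' heq
      rw [Finset.mem_coe, EE, Finset.mem_filter] at h h'
      simp only [Prod.mk.injEq] at heq ⊢
      obtain ⟨q1, q2⟩ := heq
      refine ⟨q1, ?_⟩
      have e1 := h.2
      have e2 := h'.2
      simp only at e1 e2
      rw [← q1] at e2
      rw [e1, Fin.sum_univ_succ, Fin.sum_univ_succ] at e2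
      have e3 : ∑ i : Fin s, w i.succ = ∑ i : Fin s, w' i.succ := by
        apply Finset.sum_congr rfl
        intro i _
        exact congrFun q2 i
      have e4 : w 0 = w' 0 := by omega
      rw [← Fin.cons_self_tail w, ← Fin.cons_self_tail w', e4, q2]
  refine h1.trans (le_of_eq ?_)
  rw [Finset.card_product, tup_card, tup_card, ← pow_add]
  congr 1
  ring

theorem dl_le (s k N : ℕ) (z : (Fin s → ℕ) × (Fin s → ℕ)) (hz : z ∈ EE s N) :
    (dl k z).natAbs ≤ s * N ^ k := by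
  rw [EE, Finset.mem_filter, Finset.mem_product] at hz
  have h0 : ∀ w ∈ tup s N, ∑ i, w i ^ k ≤ s * N ^ k := by
    intro w hw
    unfold tup at hw
    rw [Fintype.mem_piFinset] at hw
    calc ∑ i, w i ^ k ≤ ∑ _i : Fin s, N ^ k :=
          Finset.sum_le_sum (fun i _ => Nat.pow_le_pow_left (Finset.mem_Icc.mp (hw i)).2 k)
      _ = s * N ^ k := by simp
  have h1 := h0 _ hz.1.1
  have h2 := h0 _ hz.1.2
  unfold dl
  omega

theorem Mo_step (s r k j : ℕ) (β : ℝ) (hj : 2 ≤ j) (hjk : j < k) (hr : 2 * r = 2 ^ j)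
    (h : Mo (s + 1) k β) (hβ : 2 * (s : ℝ) + 1 - j ≤ β) : Mo (s + 1 + r) k (β + 2 ^ j - 1) := by
  intro ρ hρ
  obtain ⟨C1, hC1, h1⟩ := h ρ hρ
  have hj0 : (0 : ℝ) < j := by
    have : 0 < j := by omega
    exact_mod_cast this
  obtain ⟨C2, hC2, h2⟩ := exists_D (s + 1) k (ρ / j) (by positivity)
  refine ⟨3 ^ (2 ^ j - j - 1) * (((j : ℝ) + k) * 3 ^ j * C1 + (2 * C2) ^ j * k), ?_, ?_⟩
  · have : 0 < (j : ℝ) + k := by positivity
    positivity
  intro N hN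
  have hN1 : (1 : ℝ) ≤ N := by exact_mod_cast hN
  have hN0 : (0 : ℝ) < N := by linarith
  obtain ⟨D, hD1, hD2⟩ := h2 N hN
  have h3 := J_step (s + 1) r k N j D hj hjk hr (fun z hz hne => hD2 _ hne (dl_le _ _ _ z hz))
  refine h3.trans ?_
  have e1 : (2 * (N : ℝ) + 1) ≤ 3 * N := by linarith
  have hjj : j + 1 ≤ 2 ^ j := Nat.lt_two_pow_self
  have e2 : (2 * (N : ℝ) + 1) ^ (2 ^ j - j - 1) ≤ 3 ^ (2 ^ j - j - 1) * (N : ℝ) ^ ((2 : ℝ) ^ j - j - 1) := by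
    refine (pow_le_pow_left₀ (by positivity) e1 _).trans (le_of_eq ?_)
    rw [mul_pow]
    congr 1
    rw [← Real.rpow_natCast]
    congr 1
    rw [Nat.cast_sub (by omega), Nat.cast_sub (by omega)]
    push_cast
    ring
  have e3 : ((((j + k) * (2 * N + 1) ^ j : ℕ) : ℝ) * (J (s + 1) k N : ℝ)) ≤
      (((j : ℝ) + k) * 3 ^ j * C1) * (N : ℝ) ^ ((j : ℝ) + β + ρ) := by
    have g1 : (((j + k) * (2 * N + 1) ^ j : ℕ) : ℝ) ≤ ((j : ℝ) + k) * 3 ^ j * (N : ℝ) ^ (j : ℝ) := by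
      push_cast
      rw [Real.rpow_natCast, mul_assoc, ← mul_pow]
      apply mul_le_mul_of_nonneg_left _ (by positivity)
      exact pow_le_pow_left₀ (by positivity) e1 j
    calc _ ≤ (((j : ℝ) + k) * 3 ^ j * (N : ℝ) ^ (j : ℝ)) * (C1 * (N : ℝ) ^ (β + ρ)) :=
          mul_le_mul g1 (h1 N hN) (by positivity) (by positivity)
      _ = (((j : ℝ) + k) * 3 ^ j * C1) * ((N : ℝ) ^ (j : ℝ) * (N : ℝ) ^ (β + ρ)) := by ring
      _ = _ := by
          rw [← Real.rpow_add hN0]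
          congr 2
          ring
  have e4 : (((2 * D) ^ j * k : ℕ) : ℝ) * ((EE (s + 1) N).card : ℝ) ≤
      ((2 * C2) ^ j * k) * (N : ℝ) ^ ((j : ℝ) + β + ρ) := by
    have g1 : (((2 * D) ^ j * k : ℕ) : ℝ) ≤ (2 * C2) ^ j * k * (N : ℝ) ^ ρ := by
      push_cast
      have g2 : (2 * (D : ℝ)) ^ j ≤ (2 * C2) ^ j * (N : ℝ) ^ ρ := by
        have g3 : 2 * (D : ℝ) ≤ (2 * C2) * (N : ℝ) ^ (ρ / j) := by linarith
        refine (pow_le_pow_left₀ (by positivity) g3 j).trans (le_of_eq ?_)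
        rw [mul_pow (2 * C2)]
        congr 1
        rw [← Real.rpow_natCast, ← Real.rpow_mul hN0.le]
        congr 1
        field_simp
      calc (2 * (D : ℝ)) ^ j * k ≤ ((2 * C2) ^ j * (N : ℝ) ^ ρ) * k :=
            mul_le_mul_of_nonneg_right g2 (by positivity)
        _ = _ := by ring
    have g2 : ((EE (s + 1) N).card : ℝ) ≤ (N : ℝ) ^ (2 * (s : ℝ) + 1) := by
      have g3 := EE_card s N
      have g4 : ((EE (s + 1) N).card : ℝ) ≤ ((N ^ (2 * s + 1) : ℕ) : ℝ) := by exact_mod_cast g3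
      refine g4.trans (le_of_eq ?_)
      push_cast
      rw [← Real.rpow_natCast]
      congr 1
      push_cast
      ring
    calc _ ≤ ((2 * C2) ^ j * k * (N : ℝ) ^ ρ) * (N : ℝ) ^ (2 * (s : ℝ) + 1) :=
          mul_le_mul g1 g2 (by positivity) (by positivity)
      _ = ((2 * C2) ^ j * k) * ((N : ℝ) ^ ρ * (N : ℝ) ^ (2 * (s : ℝ) + 1)) := by ring
      _ ≤ ((2 * C2) ^ j * k) * (N : ℝ) ^ ((j : ℝ) + β + ρ) := by
          apply mul_le_mul_of_nonneg_left _ (by positivity)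
          rw [← Real.rpow_add hN0]
          apply Real.rpow_le_rpow_of_exponent_le hN1
          linarith
  calc _ ≤ (3 ^ (2 ^ j - j - 1) * (N : ℝ) ^ ((2 : ℝ) ^ j - j - 1)) *
        ((((j : ℝ) + k) * 3 ^ j * C1) * (N : ℝ) ^ ((j : ℝ) + β + ρ) +
          ((2 * C2) ^ j * k) * (N : ℝ) ^ ((j : ℝ) + β + ρ)) :=
        mul_le_mul e2 (add_le_add e3 e4) (by positivity) (by positivity)
    _ = (3 ^ (2 ^ j - j - 1) * (((j : ℝ) + k) * 3 ^ j * C1 + (2 * C2) ^ j * k)) *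
        ((N : ℝ) ^ ((2 : ℝ) ^ j - j - 1) * (N : ℝ) ^ ((j : ℝ) + β + ρ)) := by ring
    _ = _ := by
        rw [← Real.rpow_add hN0]
        congr 2
        ring

theorem Mo_three (k : ℕ) (hk : 1 < k) : Mo 3 k 3 := by
  intro ρ hρ
  obtain ⟨C2, hC2, h2⟩ := exists_D (3 + 2 ^ k) k (ρ / 2) (by positivity)
  refine ⟨4 * C2 ^ 2 + 4 * (1 + 3 * (k : ℝ)) ^ 2, by positivity, ?_⟩
  intro N hN
  have hN1 : (1 : ℝ) ≤ N := by exact_mod_cast hN
  have hN0 : (0 : ℝ) < N := by linarith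
  obtain ⟨D, hD1, hD2⟩ := h2 N hN
  have h3 := J_three k N D hk hD2
  have h4 : (J 3 k N : ℝ) ≤ (N : ℝ) ^ 3 * (2 * D) ^ 2 + (3 * N + 1) * (N + (2 * N + 1) * k) ^ 2 := by
    exact_mod_cast h3
  have e0 : (N : ℝ) ^ (3 + ρ) = (N : ℝ) ^ 3 * (N : ℝ) ^ ρ := by
    rw [Real.rpow_add hN0]
    congr 1
    rw [← Real.rpow_natCast]; norm_num
  have e1 : (1 : ℝ) ≤ (N : ℝ) ^ ρ := Real.one_le_rpow hN1 hρ.le
  have e2 : (D : ℝ) ^ 2 ≤ C2 ^ 2 * (N : ℝ) ^ ρ := by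
    refine (pow_le_pow_left₀ (by positivity) hD1 2).trans (le_of_eq ?_)
    rw [mul_pow]
    congr 1
    rw [← Real.rpow_natCast, ← Real.rpow_mul hN0.le]
    congr 1
    push_cast
    ring
  have e3 : (3 * (N : ℝ) + 1) * (N + (2 * N + 1) * k) ^ 2 ≤ 4 * (1 + 3 * (k : ℝ)) ^ 2 * (N : ℝ) ^ 3 := by
    have g1 : 3 * (N : ℝ) + 1 ≤ 4 * N := by linarith
    have g2 : (N : ℝ) + (2 * N + 1) * k ≤ (1 + 3 * k) * N := by
      have : (0 : ℝ) ≤ k := by positivity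
      nlinarith
    calc (3 * (N : ℝ) + 1) * (N + (2 * N + 1) * k) ^ 2 ≤ (4 * N) * ((1 + 3 * k) * N) ^ 2 :=
          mul_le_mul g1 (pow_le_pow_left₀ (by positivity) g2 2) (by positivity) (by positivity)
      _ = _ := by ring
  refine h4.trans ?_
  rw [e0]
  calc (N : ℝ) ^ 3 * (2 * D) ^ 2 + (3 * N + 1) * (N + (2 * N + 1) * k) ^ 2
      ≤ (N : ℝ) ^ 3 * (4 * (C2 ^ 2 * (N : ℝ) ^ ρ)) + 4 * (1 + 3 * (k : ℝ)) ^ 2 * (N : ℝ) ^ 3 := by
        apply add_le_add _ e3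
        apply mul_le_mul_of_nonneg_left _ (by positivity)
        linarith
    _ ≤ (N : ℝ) ^ 3 * (4 * (C2 ^ 2 * (N : ℝ) ^ ρ)) + 4 * (1 + 3 * (k : ℝ)) ^ 2 * (N : ℝ) ^ 3 * (N : ℝ) ^ ρ := by
        have : 0 ≤ 4 * (1 + 3 * (k : ℝ)) ^ 2 * (N : ℝ) ^ 3 := by positivity
        nlinarith
    _ = _ := by ring

/-- `2 ^ i + 2` variables, saving `i + 1` -/
theorem Mo_main (k i : ℕ) (hi : 2 ≤ i) (hik : i ≤ k) :
    Mo (2 ^ (i - 1) + 1) k ((2 : ℝ) ^ i + 1 - i) := by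
  induction i, hi using Nat.le_induction with
  | base =>
    have h := Mo_three k (by omega)
    have e1 : ((2 : ℝ) ^ 2 + 1 - ((2 : ℕ) : ℝ)) = 3 := by norm_num
    rw [e1]
    exact h
  | succ i hi ih =>
    have h := ih (by omega)
    have hp : 2 * 2 ^ (i - 1) = 2 ^ i := by
      rw [← pow_succ']
      congr 1
      omega
    have hpr : 2 * ((2 ^ (i - 1) : ℕ) : ℝ) = 2 ^ i := by exact_mod_cast hp
    have h2 := Mo_step (2 ^ (i - 1)) (2 ^ (i - 1)) k i _ hi (by omega) hp h (by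
      rw [hpr])
    have e1 : 2 ^ (i + 1 - 1) + 1 = 2 ^ (i - 1) + 1 + 2 ^ (i - 1) := by
      rw [Nat.add_sub_cancel]
      omega
    rw [e1]
    have e2 : (2 : ℝ) ^ (i + 1) + 1 - ((i + 1 : ℕ) : ℝ) = (2 : ℝ) ^ i + 1 - i + 2 ^ i - 1 := by
      push_cast
      rw [pow_succ]
      ring
    rw [e2]
    exact h2

end Pool.Agent.X17.HW
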