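import Pool.Agent.X17.HW.Fin
import Pool.Agent.TH181.MX.Lin

/-! # The exceptional set in the plane: measure, covering, dimension of an upper limit -/

set_option autoImplicit false

open Finset MeasureTheory

namespace Pool.Agent.X17.HW

open Pool.Agent.W928.MW (e sm e_add e_norm e_sub_re e_cont sm_le ev_pow ev_log)
open Pool.Agent.TH181.MW
open Pool.Agent.TH181.MX (MV meas_max shift_xi)

theorem mv_Q (s k N : ℕ) (t : ℝ) : MV k N t (2 * s) (Q s k N t) := by
  intro u v c _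
  have h1 : ∀ x : ℝ, ‖sm k N t (x + c)‖ ^ (2 * s) =
      ‖∑ m ∈ range (s * N + 1), e (x * (((m : ℕ) : ℤ) : ℝ)) * (e (c * m) * p s k N m t)‖ ^ 2 := by
    intro x
    have h2 : ‖sm k N t (x + c)‖ ^ (2 * s) = ‖sm k N t (x + c) ^ s‖ ^ 2 := by
      rw [norm_pow, ← pow_mul, mul_comm]
    rw [h2, sm_pow]
    congr 2
    apply Finset.sum_congr rfl
    intro m _
    rw [← mul_assoc, ← e_add]
    congr 2
    push_cast
    ring
  simp_rw [h1]
  rw [Pool.Agent.TH181.MX.parseval (range (s * N + 1)) (fun n : ℕ => (n : ℤ)) (fun a _ b _ h => by simpa using h)]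
  apply le_of_eq
  congr 1
  unfold Q
  apply Finset.sum_congr rfl
  intro m _
  rw [norm_mul, e_norm, one_mul]

theorem sm_cont2 (k N : ℕ) : Continuous (fun z : ℝ × ℝ => sm k N z.1 z.2) := by
  unfold Pool.Agent.W928.MW.sm
  refine continuous_finsetSum _ (fun n _ => ?_)
  exact e_cont.comp (by fun_prop)

/-- measure in the plane of the set where an incomplete sum is large -/
theorem meas_plane (s k N : ℕ) (hN : 1 ≤ N) (u v u' v' : ℤ) (huv : u ≤ v) (huv' : u' ≤ v')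
    (lam : ℝ) (hl : 0 < lam) :
    volume {z : ℝ × ℝ | z.1 ∈ Set.Icc (u : ℝ) (v : ℝ) ∧ z.2 ∈ Set.Icc (u' : ℝ) (v' : ℝ) ∧
      ∃ m : ℕ, m ≤ N ∧ lam ≤ ‖sm k m z.1 z.2‖} ≤
      ENNReal.ofReal (((v' : ℝ) - u') * (2 + Real.log N) ^ (2 * s) / lam ^ (2 * s) *
        (((v : ℝ) - u) * (J s k N : ℝ))) := by
  have hN' : (1 : ℝ) ≤ N := by exact_mod_cast hN
  have hlog : 0 ≤ Real.log N := Real.log_nonneg hN'
  have huvr : (u : ℝ) ≤ (v : ℝ) := by exact_mod_cast huv
  have huvr' : (u' : ℝ) ≤ (v' : ℝ) := by exact_mod_cast huv'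
  set F : Set (ℝ × ℝ) := {z : ℝ × ℝ | z.1 ∈ Set.Icc (u : ℝ) (v : ℝ) ∧ z.2 ∈ Set.Icc (u' : ℝ) (v' : ℝ) ∧
      ∃ m : ℕ, m ≤ N ∧ lam ≤ ‖sm k m z.1 z.2‖} with hF
  have hmeas : MeasurableSet F := by
    have h1 : F = (Set.Icc (u : ℝ) (v : ℝ) ×ˢ Set.Icc (u' : ℝ) (v' : ℝ)) ∩
        ⋃ m ∈ range (N + 1), {z : ℝ × ℝ | lam ≤ ‖sm k m z.1 z.2‖} := by
      ext z
      simp only [hF, Set.mem_ofPred_eq, Set.mem_inter_iff, Set.mem_prod, Set.mem_iUnion, Finset.mem_range,
        exists_prop, Nat.lt_succ_iff, and_assoc]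
    rw [h1]
    apply MeasurableSet.inter
    · exact measurableSet_Icc.prod measurableSet_Icc
    · apply Finset.measurableSet_biUnion
      intro m _
      exact (isClosed_le continuous_const (sm_cont2 k m).norm).measurableSet
  set c : ℝ := ((v' : ℝ) - u') * (2 + Real.log N) ^ (2 * s) / lam ^ (2 * s) with hc
  have hc0 : 0 ≤ c := by
    have : 0 ≤ (v' : ℝ) - u' := by linarith
    positivity
  rw [Measure.volume_eq_prod, Measure.prod_apply hmeas]
  have h2 : ∀ t : ℝ, volume (Prod.mk t ⁻¹' F) ≤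
      (Set.Icc (u : ℝ) (v : ℝ)).indicator (fun t => ENNReal.ofReal (c * Q s k N t)) t := by
    intro t
    by_cases ht : t ∈ Set.Icc (u : ℝ) (v : ℝ)
    · rw [Set.indicator_of_mem ht]
      have h3 := meas_max k N t (2 * s) (Q s k N t) hN (mv_Q s k N t) u' v' lam huv' hl
      have h4 : Prod.mk t ⁻¹' F ⊆ {x : ℝ | x ∈ Set.Icc (u' : ℝ) (v' : ℝ) ∧ ∃ m : ℕ, m ≤ N ∧ lam ≤ ‖sm k m t x‖} := by
        intro x hx
        exact hx.2
      refine (measure_mono h4).trans (h3.trans (le_of_eq ?_))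
      congr 1
      rw [hc]
      ring
    · have h5 : Prod.mk t ⁻¹' F = ∅ := by
        ext x
        constructor
        · intro hx
          exact absurd hx.1 ht
        · intro hx
          exact absurd hx (Set.notMem_empty x)
      rw [h5, measure_empty]
      exact zero_le
  refine (lintegral_mono h2).trans ?_
  rw [lintegral_indicator measurableSet_Icc, ← ofReal_integral_eq_lintegral_ofReal]
  · apply le_of_eq
    congr 1
    rw [integral_Icc_eq_integral_Ioc, ← intervalIntegral.integral_of_le huvr, intervalIntegral.integral_const_mul,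
      int_Q]
  · exact ((continuous_const.mul (Q_cont s k N)).continuousOn).integrableOn_Icc
  · apply Filter.Eventually.of_forall
    intro t
    exact mul_nonneg hc0 (Q_nonneg s k N t)

/-- from measure to covering number, in the plane -/
theorem cov2 (E F : Set (ℝ × ℝ)) (δ V a b c d : ℝ) (hδ : 0 < δ) (hV : 0 ≤ V)
    (hE : ∀ z ∈ E, (a ≤ z.1 ∧ z.1 ≤ b) ∧ (c ≤ z.2 ∧ z.2 ≤ d))
    (hEF : ∀ z ∈ E, ∀ z' : ℝ × ℝ, |z'.1 - z.1| ≤ δ → |z'.2 - z.2| ≤ δ → z' ∈ F)
    (hF : volume F ≤ ENNReal.ofReal V) :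
    ∃ S : Finset (ℝ × ℝ), (S.card : ℝ) ≤ V / δ ^ 2 ∧
      E ⊆ ⋃ x ∈ S, Set.Icc x.1 (x.1 + δ) ×ˢ Set.Icc x.2 (x.2 + δ) := by
  classical
  set T : Finset (ℤ × ℤ) := ((Finset.Icc ⌊a / δ⌋ ⌊b / δ⌋) ×ˢ (Finset.Icc ⌊c / δ⌋ ⌊d / δ⌋)).filter
    (fun m => ∃ z ∈ E, ⌊z.1 / δ⌋ = m.1 ∧ ⌊z.2 / δ⌋ = m.2) with hT
  set sq : ℤ × ℤ → Set (ℝ × ℝ) := fun m => Set.Ico ((m.1 : ℝ) * δ) (((m.1 : ℝ) + 1) * δ) ×ˢ
    Set.Ico ((m.2 : ℝ) * δ) (((m.2 : ℝ) + 1) * δ) with hsq
  have fl : ∀ x : ℝ, (⌊x / δ⌋ : ℝ) * δ ≤ x ∧ x < ((⌊x / δ⌋ : ℝ) + 1) * δ := by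
    intro x
    have h2 : (⌊x / δ⌋ : ℝ) ≤ x / δ := Int.floor_le _
    have h3 : x / δ < (⌊x / δ⌋ : ℝ) + 1 := Int.lt_floor_add_one _
    rw [le_div_iff₀ hδ] at h2
    rw [div_lt_iff₀ hδ] at h3
    exact ⟨h2, h3⟩
  refine ⟨T.image (fun m : ℤ × ℤ => ((m.1 : ℝ) * δ, (m.2 : ℝ) * δ)), ?_, ?_⟩
  · have h1 : (⋃ m ∈ T, sq m) ⊆ F := by
      intro z' hz'
      rw [Set.mem_iUnion₂] at hz'
      obtain ⟨m, hm, hm'⟩ := hz'
      rw [hT, Finset.mem_filter] at hm
      obtain ⟨_, z, hzE, hz1, hz2⟩ := hm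
      have g1 := fl z.1
      have g2 := fl z.2
      rw [hz1] at g1
      rw [hz2] at g2
      have g3 := hm'.1
      have g4 := hm'.2
      rw [Set.mem_Ico] at g3 g4
      apply hEF z hzE
      · rw [abs_le]
        constructor <;> nlinarith [g1.1, g1.2, g3.1, g3.2]
      · rw [abs_le]
        constructor <;> nlinarith [g2.1, g2.2, g4.1, g4.2]
    have key : ∀ (m n : ℤ) (x : ℝ), x ∈ Set.Ico ((m : ℝ) * δ) (((m : ℝ) + 1) * δ) →
        x ∈ Set.Ico ((n : ℝ) * δ) (((n : ℝ) + 1) * δ) → m = n := by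
      intro m n x hx hx'
      have g1 : (m : ℝ) * δ < ((n : ℝ) + 1) * δ := lt_of_le_of_lt hx.1 hx'.2
      have g2 : (n : ℝ) * δ < ((m : ℝ) + 1) * δ := lt_of_le_of_lt hx'.1 hx.2
      have g3 : (m : ℝ) < (n : ℝ) + 1 := lt_of_mul_lt_mul_right g1 hδ.le
      have g4 : (n : ℝ) < (m : ℝ) + 1 := lt_of_mul_lt_mul_right g2 hδ.le
      have g5 : m < n + 1 := by exact_mod_cast g3
      have g6 : n < m + 1 := by exact_mod_cast g4
      omega
    have h2 : volume (⋃ m ∈ T, sq m) = (T.card : ENNReal) * ENNReal.ofReal (δ ^ 2) := by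
      rw [measure_biUnion_finset]
      · have : ∀ m ∈ T, volume (sq m) = ENNReal.ofReal (δ ^ 2) := by
          intro m _
          rw [hsq]
          simp only
          rw [Measure.volume_eq_prod, Measure.prod_prod, Real.volume_Ico, Real.volume_Ico,
            ← ENNReal.ofReal_mul (by nlinarith)]
          congr 1
          ring
        rw [Finset.sum_congr rfl this, Finset.sum_const, nsmul_eq_mul]
      · intro m _ n _ hmn
        change Disjoint _ _
        rw [Set.disjoint_left]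
        intro z hz hz'
        apply hmn
        exact Prod.ext (key _ _ _ hz.1 hz'.1) (key _ _ _ hz.2 hz'.2)
      · intro m _
        exact measurableSet_Ico.prod measurableSet_Ico
    have h3 : (T.card : ENNReal) * ENNReal.ofReal (δ ^ 2) ≤ ENNReal.ofReal V := by
      rw [← h2]; exact (measure_mono h1).trans hF
    have h4 : (T.card : ENNReal) * ENNReal.ofReal (δ ^ 2) = ENNReal.ofReal ((T.card : ℝ) * δ ^ 2) := by
      rw [ENNReal.ofReal_mul (by positivity), ENNReal.ofReal_natCast]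
    rw [h4, ENNReal.ofReal_le_ofReal_iff hV] at h3
    have h5 : ((T.image (fun m : ℤ × ℤ => ((m.1 : ℝ) * δ, (m.2 : ℝ) * δ))).card : ℝ) ≤ (T.card : ℝ) := by
      exact_mod_cast Finset.card_image_le
    rw [le_div_iff₀ (by positivity)]
    exact (mul_le_mul_of_nonneg_right h5 (by positivity)).trans h3
  · intro z hz
    rw [Set.mem_iUnion₂]
    refine ⟨((⌊z.1 / δ⌋ : ℝ) * δ, (⌊z.2 / δ⌋ : ℝ) * δ), ?_, ?_⟩
    · rw [Finset.mem_image]
      refine ⟨(⌊z.1 / δ⌋, ⌊z.2 / δ⌋), ?_, rfl⟩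
      rw [hT, Finset.mem_filter, Finset.mem_product, Finset.mem_Icc, Finset.mem_Icc]
      have h1 := hE z hz
      exact ⟨⟨⟨Int.floor_le_floor (div_le_div_of_nonneg_right h1.1.1 hδ.le),
        Int.floor_le_floor (div_le_div_of_nonneg_right h1.1.2 hδ.le)⟩,
        ⟨Int.floor_le_floor (div_le_div_of_nonneg_right h1.2.1 hδ.le),
        Int.floor_le_floor (div_le_div_of_nonneg_right h1.2.2 hδ.le)⟩⟩, z, hz, rfl, rfl⟩
    · have g1 := fl z.1
      have g2 := fl z.2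
      exact ⟨⟨g1.1, by nlinarith [g1.2]⟩, ⟨g2.1, by nlinarith [g2.2]⟩⟩

/-- Hausdorff dimension of an upper limit of sets covered by few small sets -/
theorem dimg {X : Type} [MetricSpace X] (A L D : ℝ) (B : ℕ → Set X) (U : ℕ → X → Set X)
    (hL : 0 < L) (hD : 0 < D) (hAL : A < L * D)
    (hU : ∀ (i : ℕ) (x : X), Metric.ediam (U i x) ≤ ENNReal.ofReal (((2 : ℝ) ^ i) ^ (-L)))
    (hcov : ∃ i0 : ℕ, ∀ i : ℕ, i0 ≤ i → ∃ S : Finset X, (S.card : ℝ) ≤ ((2 : ℝ) ^ i) ^ A ∧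
      B i ⊆ ⋃ x ∈ S, U i x) :
    dimH {c : X | ∀ i1 : ℕ, ∃ i : ℕ, i1 ≤ i ∧ c ∈ B i} ≤ ENNReal.ofReal D := by
  classical
  borelize X
  obtain ⟨i0, hi0⟩ := hcov
  choose! S hS1 hS2 using hi0
  set E : Set X := {c : X | ∀ i1 : ℕ, ∃ i : ℕ, i1 ≤ i ∧ c ∈ B i} with hE
  set ρ : ℝ := (2 : ℝ) ^ (A - L * D) with hρ
  have hρ0 : 0 < ρ := by positivity
  have hρ1 : ρ < 1 := Real.rpow_lt_one_of_one_lt_of_neg (by norm_num) (by linarith)
  have hpow : ∀ (i : ℕ) (c : ℝ), ((2 : ℝ) ^ i) ^ c = ((2 : ℝ) ^ c) ^ i := by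
    intro i c
    rw [← Real.rpow_natCast, ← Real.rpow_mul (by norm_num), mul_comm, Real.rpow_mul (by norm_num),
      Real.rpow_natCast]
  have key : μH[D] E ≤ ENNReal.ofReal (1 / (1 - ρ)) := by
    have h1 := Measure.hausdorffMeasure_le_liminf_tsum (X := X) (β := ℕ)
      (ι := fun n : ℕ => Σ i : ℕ, {x : X // x ∈ S (n + i0 + i)}) D E (l := Filter.atTop)
      (fun n : ℕ => ENNReal.ofReal (((2 : ℝ) ^ (-L)) ^ (n + i0))) (by
        have g1 : Filter.Tendsto (fun n : ℕ => ((2 : ℝ) ^ (-L)) ^ (n + i0)) Filter.atTop (nhds 0) := by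
          have g2 := tendsto_pow_atTop_nhds_zero_of_lt_one (r := (2 : ℝ) ^ (-L)) (by positivity)
            (Real.rpow_lt_one_of_one_lt_of_neg (by norm_num) (by linarith))
          exact (Filter.tendsto_add_atTop_iff_nat i0).mpr g2
        have g3 := ENNReal.tendsto_ofReal g1
        rwa [ENNReal.ofReal_zero] at g3)
      (fun n v => U (n + i0 + v.1) v.2.1)
      (by
        apply Filter.Eventually.of_forall
        intro n v
        refine (hU _ _).trans ?_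
        rw [hpow]
        apply ENNReal.ofReal_le_ofReal
        exact pow_le_pow_of_le_one (by positivity)
            (Real.rpow_lt_one_of_one_lt_of_neg (by norm_num) (by linarith)).le (by omega))
      (by
        apply Filter.Eventually.of_forall
        intro n c hc
        obtain ⟨i, hi1, hi2⟩ := hc (n + i0)
        obtain ⟨m, rfl⟩ := Nat.exists_eq_add_of_le hi1
        have g1 := hS2 (n + i0 + m) (by omega) hi2
        rw [Set.mem_iUnion₂] at g1
        obtain ⟨x, hx, hx'⟩ := g1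
        rw [Set.mem_iUnion]
        exact ⟨⟨m, ⟨x, hx⟩⟩, hx'⟩)
    refine h1.trans ?_
    apply Filter.liminf_le_of_le (f := Filter.atTop) (hf := by isBoundedDefault)
    intro b hb
    rw [Filter.eventually_atTop] at hb
    obtain ⟨n, hn⟩ := hb
    refine (hn n le_rfl).trans ?_
    rw [ENNReal.tsum_sigma']
    have g1 : ∀ i : ℕ, ∑' x : {x : X // x ∈ S (n + i0 + i)},
        Metric.ediam (U (n + i0 + i) x.1) ^ D ≤ ENNReal.ofReal (ρ ^ i) := by
      intro i
      have g2 : ∀ x : {x : X // x ∈ S (n + i0 + i)},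
          Metric.ediam (U (n + i0 + i) x.1) ^ D ≤
          ENNReal.ofReal (((2 : ℝ) ^ (n + i0 + i)) ^ (-(L * D))) := by
        intro x
        refine (ENNReal.rpow_le_rpow (hU _ _) hD.le).trans (le_of_eq ?_)
        rw [ENNReal.ofReal_rpow_of_nonneg (by positivity) hD.le]
        congr 1
        rw [← Real.rpow_mul (by positivity)]
        congr 1
        ring
      refine (ENNReal.tsum_le_tsum g2).trans ?_
      rw [tsum_fintype, Finset.sum_const, Finset.card_univ, Fintype.card_coe, nsmul_eq_mul,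
        ← ENNReal.ofReal_natCast, ← ENNReal.ofReal_mul (by positivity)]
      apply ENNReal.ofReal_le_ofReal
      have g3 := hS1 (n + i0 + i) (by omega)
      calc ((S (n + i0 + i)).card : ℝ) * ((2 : ℝ) ^ (n + i0 + i)) ^ (-(L * D))
          ≤ ((2 : ℝ) ^ (n + i0 + i)) ^ A * ((2 : ℝ) ^ (n + i0 + i)) ^ (-(L * D)) :=
            mul_le_mul_of_nonneg_right g3 (by positivity)
        _ = ρ ^ (n + i0 + i) := by
            rw [← Real.rpow_add (by positivity), ← sub_eq_add_neg, hpow, hρ]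
        _ ≤ ρ ^ i := pow_le_pow_of_le_one hρ0.le hρ1.le (by omega)
    refine (ENNReal.tsum_le_tsum g1).trans ?_
    have g4 : Summable (fun i : ℕ => ρ ^ i) := summable_geometric_of_lt_one hρ0.le hρ1
    rw [← ENNReal.ofReal_tsum_of_nonneg (fun i => by positivity) g4, tsum_geometric_of_lt_one hρ0.le hρ1,
      one_div]
  have h2 : μH[((D.toNNReal : NNReal) : ℝ)] E ≠ ⊤ := by
    rw [Real.coe_toNNReal D hD.le]
    exact ne_top_of_le_ne_top ENNReal.ofReal_ne_top key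
  exact dimH_le_of_hausdorffMeasure_ne_top h2

theorem sq_diam (x : ℝ × ℝ) (δ : ℝ) :
    Metric.ediam (Set.Icc x.1 (x.1 + δ) ×ˢ Set.Icc x.2 (x.2 + δ)) ≤ ENNReal.ofReal δ := by
  apply Metric.ediam_le
  intro y hy z hz
  rw [Prod.edist_eq, max_le_iff, edist_dist, edist_dist, Real.dist_eq, Real.dist_eq]
  constructor
  · apply ENNReal.ofReal_le_ofReal
    rw [abs_le]
    constructor <;> linarith [hy.1.1, hy.1.2, hz.1.1, hz.1.2]
  · apply ENNReal.ofReal_le_ofReal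
    rw [abs_le]
    constructor <;> linarith [hy.2.1, hy.2.2, hz.2.1, hz.2.2]

end Pool.Agent.X17.HW
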