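import Pool.Agent.X17.HW.PlaneA

/-! # The exceptional set in the plane: its Hausdorff dimension -/

set_option autoImplicit false

open Finset MeasureTheory

namespace Pool.Agent.X17.HW

open Pool.Agent.W928.MW (e sm e_add e_norm e_sub_re e_cont sm_le ev_pow ev_log)
open Pool.Agent.TH181.MW
open Pool.Agent.TH181.MX (MV meas_max shift_xi)

/-- pairs bad at scale `2 ^ i` -/
def BP (k : ℕ) (θ : ℝ) (j l : ℤ) (i : ℕ) : Set (ℝ × ℝ) :=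
  {z : ℝ × ℝ | (((j : ℝ) ≤ z.1 ∧ z.1 ≤ (j : ℝ) + 1) ∧ ((l : ℝ) ≤ z.2 ∧ z.2 ≤ (l : ℝ) + 1)) ∧
    ∃ M : ℕ, M ≤ 2 ^ i ∧ 2 ^ i ≤ 2 * M ∧ (M : ℝ) ^ θ < ‖sm k M z.1 z.2‖}

theorem coverP (s k : ℕ) (β θ : ℝ) (hk : 1 ≤ k) (hθ : 0 ≤ θ) (hM : Mo s k β)
    (ε' : ℝ) (hε' : 0 < ε') (j l : ℤ) :
    ∃ i0 : ℕ, ∀ i : ℕ, i0 ≤ i → ∃ S : Finset (ℝ × ℝ),
      (S.card : ℝ) ≤ ((2 : ℝ) ^ i) ^ (β + 2 * k - 2 * s * θ + 3 * ε') ∧
      BP k θ j l i ⊆ ⋃ x ∈ S, Set.Icc x.1 (x.1 + ((2 : ℝ) ^ i) ^ (-(k : ℝ))) ×ˢ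
        Set.Icc x.2 (x.2 + ((2 : ℝ) ^ i) ^ (-(k : ℝ))) := by
  obtain ⟨C, hC0, hC⟩ := hM ε' hε'
  set c2 : ℝ := (1 + 2 * Real.pi) * (1 + 2 * Real.pi * 2 ^ k) with hc2
  have hc2' : 0 < c2 := by positivity
  obtain ⟨i1, h1⟩ := ev_log (ε' / (2 * s + 1)) (by positivity) 1
  obtain ⟨i3, h3⟩ := ev_pow ε' hε' (9 * C * ((2 : ℝ) ^ θ * c2) ^ (2 * s))
  refine ⟨i1 + i3, fun i hi => ?_⟩
  have g1 := h1 i (by omega)
  have g3 := h3 i (by omega)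
  set X : ℝ := (2 : ℝ) ^ i with hX
  have hX1 : (1 : ℝ) ≤ X := one_le_pow₀ (by norm_num)
  have hX0 : (0 : ℝ) < X := by positivity
  have hNX : (((2 ^ i : ℕ) : ℕ) : ℝ) = X := by push_cast; rfl
  have hlog0 : 0 ≤ Real.log X := Real.log_nonneg hX1
  set μ : ℝ := X ^ θ / ((2 : ℝ) ^ θ * c2) with hμ
  have hμ0 : 0 < μ := by positivity
  set δ : ℝ := X ^ (-(k : ℝ)) with hδ
  have hδ' : δ = 1 / X ^ k := by
    rw [hδ, Real.rpow_neg hX0.le, Real.rpow_natCast, one_div]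
  have hδ0 : 0 < δ := by positivity
  have hδX : δ ≤ 1 / X := by
    rw [hδ']
    apply one_div_le_one_div_of_le hX0
    calc X = X ^ 1 := (pow_one _).symm
      _ ≤ X ^ k := pow_le_pow_right₀ hX1 hk
  have hδ1 : δ ≤ 1 := by
    refine hδX.trans ?_
    rw [div_le_one hX0]; exact hX1
  set F : Set (ℝ × ℝ) := {z : ℝ × ℝ | z.1 ∈ Set.Icc (((j - 1 : ℤ)) : ℝ) (((j + 2 : ℤ)) : ℝ) ∧
    z.2 ∈ Set.Icc (((l - 1 : ℤ)) : ℝ) (((l + 2 : ℤ)) : ℝ) ∧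
    ∃ m : ℕ, m ≤ 2 ^ i ∧ μ ≤ ‖sm k m z.1 z.2‖} with hF
  have key2 : ∀ z ∈ BP k θ j l i, ∀ z' : ℝ × ℝ, |z'.1 - z.1| ≤ δ → |z'.2 - z.2| ≤ δ → z' ∈ F := by
    rintro ⟨t, ξ⟩ ⟨⟨ht1, ht2⟩, M, hM1, hM2, hlt⟩ ⟨t', ξ'⟩ htt hxx
    simp only at ht1 ht2 hlt htt hxx
    have htt' := abs_le.mp htt
    have hxx' := abs_le.mp hxx
    refine ⟨⟨by push_cast; linarith [ht1.1, htt'.1], by push_cast; linarith [ht1.2, htt'.2]⟩,
      ⟨by push_cast; linarith [ht2.1, hxx'.1], by push_cast; linarith [ht2.2, hxx'.2]⟩, ?_⟩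
    by_contra hcon
    push Not at hcon
    simp only at hcon
    have h5 : ∀ m : ℕ, m ≤ 2 ^ i → ‖sm k m t ξ'‖ ≤ (1 + 2 * Real.pi * 2 ^ k) * μ := by
      intro m hm
      exact shift_le k (2 ^ i) m t t' ξ' μ Nat.one_le_two_pow hm hμ0.le
        (by rw [hNX, ← hδ', abs_sub_comm]; exact htt) (fun m hm => (hcon m hm).le)
    have h6 := shift_xi k (2 ^ i) M t ξ ξ' ((1 + 2 * Real.pi * 2 ^ k) * μ) Nat.one_le_two_pow hM1 (by positivity)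
      (by rw [hNX, abs_sub_comm]; exact hxx.trans hδX) h5
    have h7 : X / 2 ≤ (M : ℝ) := by
      have : ((2 ^ i : ℕ) : ℝ) ≤ ((2 * M : ℕ) : ℝ) := by exact_mod_cast hM2
      rw [hNX] at this
      push_cast at this
      linarith
    have h8 : (X / 2) ^ θ ≤ (M : ℝ) ^ θ := Real.rpow_le_rpow (by positivity) h7 hθ
    have h9 : (X / 2) ^ θ = X ^ θ / (2 : ℝ) ^ θ := Real.div_rpow hX0.le (by norm_num) θ
    have h10 : (1 + 2 * Real.pi) * ((1 + 2 * Real.pi * 2 ^ k) * μ) = X ^ θ / (2 : ℝ) ^ θ := by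
      rw [hμ, ← mul_assoc, ← hc2]
      field_simp
    have h12 : (M : ℝ) ^ θ < (M : ℝ) ^ θ := by
      calc (M : ℝ) ^ θ < ‖sm k M t ξ‖ := hlt
        _ ≤ (1 + 2 * Real.pi) * ((1 + 2 * Real.pi * 2 ^ k) * μ) := h6
        _ = X ^ θ / (2 : ℝ) ^ θ := h10
        _ = (X / 2) ^ θ := h9.symm
        _ ≤ (M : ℝ) ^ θ := h8
    exact lt_irrefl _ h12
  -- measure of F
  have h5 := meas_plane s k (2 ^ i) Nat.one_le_two_pow (j - 1) (j + 2) (l - 1) (l + 2) (by omega) (by omega) μ hμ0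
  rw [hNX] at h5
  have hJ := hC (2 ^ i) Nat.one_le_two_pow
  rw [hNX] at hJ
  have hLp : (2 + Real.log X) ^ (2 * s) ≤ X ^ ε' := by
    have h6 : 2 + Real.log X ≤ X ^ (ε' / (2 * s + 1)) := by
      rw [one_mul] at g1
      linarith
    calc (2 + Real.log X) ^ (2 * s) ≤ (X ^ (ε' / (2 * s + 1))) ^ (2 * s) :=
          pow_le_pow_left₀ (by linarith) h6 _
      _ = X ^ (ε' / (2 * s + 1) * ((2 * s : ℕ) : ℝ)) := by
          rw [← Real.rpow_natCast, ← Real.rpow_mul hX0.le]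
      _ ≤ X ^ ε' := by
          apply Real.rpow_le_rpow_of_exponent_le hX1
          push_cast
          rw [div_mul_eq_mul_div, div_le_iff₀ (by positivity)]
          nlinarith
  set V : ℝ := 9 * C * (X ^ ε' * X ^ (β + ε')) / μ ^ (2 * s) with hV
  have h6 : volume F ≤ ENNReal.ofReal V := by
    refine h5.trans (ENNReal.ofReal_le_ofReal ?_)
    have a0 : (((j + 2 : ℤ)) : ℝ) - (((j - 1 : ℤ)) : ℝ) = 3 := by push_cast; ring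
    have a1 : (((l + 2 : ℤ)) : ℝ) - (((l - 1 : ℤ)) : ℝ) = 3 := by push_cast; ring
    rw [a0, a1]
    calc 3 * (2 + Real.log X) ^ (2 * s) / μ ^ (2 * s) * (3 * (J s k (2 ^ i) : ℝ))
        ≤ 3 * X ^ ε' / μ ^ (2 * s) * (3 * (C * X ^ (β + ε'))) := by
          gcongr
      _ = V := by rw [hV]; ring
  obtain ⟨S, hS1, hS2⟩ := cov2 (BP k θ j l i) F δ V (j : ℝ) ((j : ℝ) + 1) (l : ℝ) ((l : ℝ) + 1) hδ0
    (by positivity) (fun z hz => hz.1) key2 h6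
  refine ⟨S, hS1.trans ?_, hS2⟩
  have h7 : V / δ ^ 2 = (9 * C * ((2 : ℝ) ^ θ * c2) ^ (2 * s)) * X ^ (β + 2 * k - 2 * s * θ + 2 * ε') := by
    have e1 : μ ^ (2 * s) = X ^ (2 * s * θ) / ((2 : ℝ) ^ θ * c2) ^ (2 * s) := by
      rw [hμ, div_pow, ← Real.rpow_natCast (X ^ θ), ← Real.rpow_mul hX0.le]
      congr 2
      push_cast
      ring
    have e2 : X ^ (β + 2 * k - 2 * s * θ + 2 * ε') =
        X ^ ε' * X ^ (β + ε') / X ^ (2 * s * θ) / (X ^ (-(k : ℝ))) ^ 2 := by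
      have f1 : (X ^ (-(k : ℝ))) ^ 2 = X ^ (-(k : ℝ) * 2) := by
        rw [← Real.rpow_natCast, ← Real.rpow_mul hX0.le]
        norm_num
      rw [f1, ← Real.rpow_add hX0, ← Real.rpow_sub hX0, ← Real.rpow_sub hX0]
      congr 1
      ring
    rw [hV, e2, e1, hδ]
    field_simp
  rw [h7]
  calc (9 * C * ((2 : ℝ) ^ θ * c2) ^ (2 * s)) * X ^ (β + 2 * k - 2 * s * θ + 2 * ε')
      ≤ X ^ ε' * X ^ (β + 2 * k - 2 * s * θ + 2 * ε') :=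
        mul_le_mul_of_nonneg_right g3 (by positivity)
    _ = X ^ (β + 2 * k - 2 * s * θ + 3 * ε') := by
        rw [← Real.rpow_add hX0]
        congr 1
        ring

/-- the inequality of `H_k(η)` at the point `z = (t, ξ)`, at all `N` and `q` -/
def HoldsP (k : ℕ) (η ε C : ℝ) (z : ℝ × ℝ) : Prop :=
  ∀ N q : ℕ, 1 ≤ N → 1 ≤ q → ‖sm k N z.1 z.2‖ ≤ C * (N : ℝ) ^ (1 + ε) *
    (1 / (q : ℝ) + 1 / (N : ℝ) + (q : ℝ) / (N : ℝ) ^ k) ^ η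

theorem bad_subP (k : ℕ) (η ε : ℝ) (hη : 0 ≤ η) (hη1 : η ≤ 1) (hε : 0 ≤ ε) (z : ℝ × ℝ)
    (hz : ¬ ∃ C : ℝ, HoldsP k η ε C z) : ∀ i1 : ℕ, ∃ i : ℕ, i1 ≤ i ∧ z ∈ BP k (1 - η + ε) ⌊z.1⌋ ⌊z.2⌋ i := by
  intro i1
  by_contra hcon
  push Not at hcon
  apply hz
  refine ⟨(2 : ℝ) ^ i1 + 1, ?_⟩
  intro N q hN hq
  have hN' : (1 : ℝ) ≤ (N : ℝ) := by exact_mod_cast hN
  set R : ℝ := (N : ℝ) ^ (1 + ε) *
      (1 / (q : ℝ) + 1 / (N : ℝ) + (q : ℝ) / (N : ℝ) ^ k) ^ η with hR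
  have h1 : (N : ℝ) ^ (1 - η + ε) ≤ R := main_geT k N q η ε hη hN
  have h2 : 1 ≤ (N : ℝ) ^ (1 - η + ε) := Real.one_le_rpow hN' (by linarith)
  have h3 : ((2 : ℝ) ^ i1 + 1) * (N : ℝ) ^ (1 + ε) *
      (1 / (q : ℝ) + 1 / (N : ℝ) + (q : ℝ) / (N : ℝ) ^ k) ^ η = ((2 : ℝ) ^ i1 + 1) * R := by
    rw [hR]; ring
  rw [h3]
  have hp : (0 : ℝ) < (2 : ℝ) ^ i1 := by positivity
  rcases le_total N (2 ^ i1) with hN2 | hN2
  · have h4 : (N : ℝ) ≤ (2 : ℝ) ^ i1 := by exact_mod_cast hN2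
    refine (sm_le k N z.1 z.2).trans ?_
    nlinarith
  · obtain ⟨i, hi1, hi2⟩ : ∃ i : ℕ, N ≤ 2 ^ i ∧ 2 ^ i ≤ 2 * N := by
      refine ⟨Nat.log 2 N + 1, (Nat.lt_pow_succ_log_self (by norm_num) N).le, ?_⟩
      have := Nat.pow_log_le_self 2 (show N ≠ 0 by omega)
      rw [pow_succ]
      omega
    have hii : i1 ≤ i := by
      have : 2 ^ i1 ≤ 2 ^ i := hN2.trans hi1
      exact (Nat.pow_le_pow_iff_right (by norm_num)).mp this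
    have h5 := hcon i hii
    have h6 : ‖sm k N z.1 z.2‖ ≤ (N : ℝ) ^ (1 - η + ε) := by
      by_contra h7
      push Not at h7
      apply h5
      exact ⟨⟨⟨Int.floor_le z.1, (Int.lt_floor_add_one z.1).le⟩,
        ⟨Int.floor_le z.2, (Int.lt_floor_add_one z.2).le⟩⟩, N, hi1, hi2, h7⟩
    nlinarith

theorem dim_genP (s k : ℕ) (β η ε : ℝ) (hk : 1 ≤ k) (hη : 0 ≤ η) (hη1 : η ≤ 1)
    (hε : 0 ≤ ε) (hM : Mo s k β) :
    dimH {z : ℝ × ℝ | ¬ ∃ C : ℝ, HoldsP k η ε C z} ≤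
      ENNReal.ofReal ((β + 2 * k - 2 * s * (1 - η + ε)) / k) := by
  set A : ℝ := β + 2 * k - 2 * s * (1 - η + ε) with hA
  have hk0 : (0 : ℝ) < k := by
    have : (1 : ℝ) ≤ k := by exact_mod_cast hk
    linarith
  have hsub : {z : ℝ × ℝ | ¬ ∃ C : ℝ, HoldsP k η ε C z} ⊆
      ⋃ j : ℤ, ⋃ l : ℤ, {z : ℝ × ℝ | ∀ i1 : ℕ, ∃ i : ℕ, i1 ≤ i ∧ z ∈ BP k (1 - η + ε) j l i} := by
    intro z hz
    rw [Set.mem_iUnion]
    refine ⟨⌊z.1⌋, ?_⟩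
    rw [Set.mem_iUnion]
    exact ⟨⌊z.2⌋, bad_subP k η ε hη hη1 hε z hz⟩
  have hfin : ENNReal.ofReal (max (A / k) 0) ≤ ENNReal.ofReal (A / k) := by
    rw [ENNReal.ofReal_max, ENNReal.ofReal_zero, max_eq_left zero_le]
  refine le_trans ?_ hfin
  refine (dimH_mono hsub).trans ?_
  rw [dimH_iUnion]
  apply iSup_le
  intro j
  rw [dimH_iUnion]
  apply iSup_le
  intro l
  apply ENNReal.le_of_forall_pos_le_add
  intro ρ hρ _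
  have hρ' : (0 : ℝ) < (ρ : ℝ) := by exact_mod_cast hρ
  set D : ℝ := max (A / k) 0 + ρ with hD
  have hD0 : 0 < D := by
    have := le_max_right (A / k) 0
    rw [hD]; linarith
  set ε' : ℝ := k * ρ / 6 with hε'def
  have hε' : 0 < ε' := by positivity
  have h1 := dimg (A + 3 * ε') k D (BP k (1 - η + ε) j l)
    (fun i x => Set.Icc x.1 (x.1 + ((2 : ℝ) ^ i) ^ (-(k : ℝ))) ×ˢ Set.Icc x.2 (x.2 + ((2 : ℝ) ^ i) ^ (-(k : ℝ))))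
    hk0 hD0
    (by
      have h2 := le_max_left (A / k) 0
      have h3 : 3 * ε' = k * ρ / 2 := by
        rw [hε'def]
        ring
      have h4 : A ≤ k * max (A / k) 0 := by
        calc A = k * (A / k) := by field_simp
          _ ≤ _ := mul_le_mul_of_nonneg_left h2 hk0.le
      rw [h3, hD, mul_add]
      have h5 : 0 < (k : ℝ) * ρ := by positivity
      linarith)
    (fun i x => sq_diam x _)
    (coverP s k β (1 - η + ε) hk (by linarith) hM ε' hε' j l)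
  refine h1.trans (le_of_eq ?_)
  rw [hD, ENNReal.ofReal_add (le_max_right _ _) hρ'.le, ENNReal.ofReal_coe_nnreal]

theorem dim_P (k i : ℕ) (hi : 2 ≤ i) (hik : i ≤ k) (η ε : ℝ) (hη : 0 ≤ η) (hη1 : η ≤ 1) (hε : 0 ≤ ε) :
    dimH {z : ℝ × ℝ | ¬ ∃ C : ℝ, HoldsP k η ε C z} ≤
      ENNReal.ofReal (2 - (i + 1 - (2 ^ i + 2) * (η - ε)) / k) := by
  have h := dim_genP (2 ^ (i - 1) + 1) k _ η ε (by omega) hη hη1 hε (Mo_main k i hi hik)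
  refine h.trans (le_of_eq ?_)
  congr 1
  have hk0 : (k : ℝ) ≠ 0 := by
    have : k ≠ 0 := by omega
    exact_mod_cast this
  have hp : 2 * 2 ^ (i - 1) = 2 ^ i := by
    rw [← pow_succ']
    congr 1
    omega
  have hpr : 2 * (2 : ℝ) ^ (i - 1) = 2 ^ i := by exact_mod_cast hp
  rw [← hpr]
  push_cast
  field_simp
  ring

end Pool.Agent.X17.HW
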