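import Pool.Agent.X17.HW.Step

/-! # Six variables -/

set_option autoImplicit false

open Finset MeasureTheory

namespace Pool.Agent.X17.HW

open Pool.Agent.TH181.MW

/-- triples from `[1,N]` -/
noncomputable def RR (N : ℕ) : Finset (ℤ × ℤ × ℤ) := Icc 1 (N : ℤ) ×ˢ Icc 1 (N : ℤ) ×ˢ Icc 1 (N : ℤ)

def mm (A : ℤ × ℤ × ℤ) : ℤ := A.1 + A.2.1 - A.2.2

def pp (k : ℕ) (A : ℤ × ℤ × ℤ) : ℤ := A.1 ^ k + A.2.1 ^ k - A.2.2 ^ k

theorem mem_RR {N : ℕ} {A : ℤ × ℤ × ℤ} : A ∈ RR N ↔
    (1 ≤ A.1 ∧ A.1 ≤ N) ∧ (1 ≤ A.2.1 ∧ A.2.1 ≤ N) ∧ (1 ≤ A.2.2 ∧ A.2.2 ≤ N) := by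
  unfold RR
  simp only [Finset.mem_product, Finset.mem_Icc]

theorem RR_card (N : ℕ) : (RR N).card = N ^ 3 := by
  unfold RR
  rw [Finset.card_product, Finset.card_product, Int.card_Icc]
  have : ((N : ℤ) + 1 - 1).toNat = N := by omega
  rw [this]; ring

theorem mem_AA1 (N : ℕ) (h n : ℤ) : n ∈ AA N [h] ↔ n ∈ Icc 1 (N : ℤ) ∧ n + h ∈ Icc 1 (N : ℤ) := by
  rw [AA, Finset.mem_filter, AA]

theorem zero_fib (k N : ℕ) (hk : 1 < k) (m : ℤ) :
    ((RR N).filter (fun A => mm A = m ∧ pp k A = m ^ k)).card ≤ N + (2 * N + 1) * k := by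
  classical
  have hsub : (RR N).filter (fun A => mm A = m ∧ pp k A = m ^ k) ⊆
      (Icc 1 (N : ℤ)).image (fun a => (a, m, a)) ∪
      ((Icc (-(N : ℤ)) N).erase 0).biUnion (fun h =>
        ((AA N [h]).filter (fun n => ph (fun n => n ^ k) [h] n = m ^ k - (m - h) ^ k)).image
          (fun n => (n + h, m - h, n))) := by
    rintro ⟨a, b, c⟩ hA
    rw [Finset.mem_filter, mem_RR] at hA
    obtain ⟨⟨h1, h2, h3⟩, h4, h5⟩ := hA
    simp only [mm, pp] at h1 h2 h3 h4 h5
    rw [Finset.mem_union]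
    by_cases hac : a = c
    · left
      rw [Finset.mem_image]
      refine ⟨a, by rw [Finset.mem_Icc]; exact h1, ?_⟩
      subst hac
      have : b = m := by linarith
      rw [this]
    · right
      rw [Finset.mem_biUnion]
      refine ⟨a - c, ?_, ?_⟩
      · rw [Finset.mem_erase, Finset.mem_Icc]
        refine ⟨sub_ne_zero.mpr hac, by omega, by omega⟩
      · rw [Finset.mem_image]
        refine ⟨c, ?_, ?_⟩
        · rw [Finset.mem_filter]
          constructor
          · rw [mem_AA1, Finset.mem_Icc, Finset.mem_Icc]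
            refine ⟨h3, by omega, by omega⟩
          · simp only [ph]
            have e1 : c + (a - c) = a := by ring
            have e2 : m - (a - c) = b := by linarith
            rw [e1, e2]
            linarith
        · have e1 : c + (a - c) = a := by ring
          have e2 : m - (a - c) = b := by linarith
          simp only [e1, e2]
  refine (Finset.card_le_card hsub).trans ((Finset.card_union_le _ _).trans ?_)
  apply Nat.add_le_add
  · refine Finset.card_image_le.trans ?_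
    rw [Int.card_Icc]; omega
  · refine (Finset.card_biUnion_le_card_mul _ _ k ?_).trans ?_
    · intro h hh
      refine Finset.card_image_le.trans ?_
      rw [Finset.mem_erase] at hh
      exact cnt_le k N [h] (by simpa using (Ne.symm hh.1)) (by simpa using hk) _
    · apply Nat.mul_le_mul_right
      refine (Finset.card_erase_le).trans ?_
      rw [card_H]

/-- positive and negative divisors -/
def pd (c : ℤ) : Finset ℤ := (c.natAbs.divisors).image (fun d : ℕ => (d : ℤ)) ∪
    (c.natAbs.divisors).image (fun d : ℕ => -(d : ℤ))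

theorem pd_card (c : ℤ) : (pd c).card ≤ 2 * c.natAbs.divisors.card := by
  have h2 := Finset.card_union_le ((c.natAbs.divisors).image (fun d : ℕ => (d : ℤ)))
    ((c.natAbs.divisors).image (fun d : ℕ => -(d : ℤ)))
  have h3 : ((c.natAbs.divisors).image (fun d : ℕ => (d : ℤ))).card ≤ c.natAbs.divisors.card :=
    Finset.card_image_le
  have h4 : ((c.natAbs.divisors).image (fun d : ℕ => -(d : ℤ))).card ≤ c.natAbs.divisors.card :=
    Finset.card_image_le
  unfold pd
  omega

theorem mem_pd {c h : ℤ} (hc : c ≠ 0) (hh : h ∣ c) : h ∈ pd c := by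
  have h6 : h.natAbs ∈ c.natAbs.divisors := by
    rw [Nat.mem_divisors]
    exact ⟨Int.natAbs_dvd_natAbs.mpr hh, Int.natAbs_ne_zero.mpr hc⟩
  unfold pd
  rw [Finset.mem_union, Finset.mem_image, Finset.mem_image]
  rcases le_total 0 h with h0 | h0
  · left; exact ⟨_, h6, by omega⟩
  · right; exact ⟨_, h6, by omega⟩

theorem nonzero_fib (k N D : ℕ) (m c : ℤ) (hc : c ≠ 0) (hD : c.natAbs.divisors.card ≤ D) :
    ((RR N).filter (fun A => mm A = m ∧ pp k A = c + m ^ k)).card ≤ (2 * D) ^ 2 := by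
  classical
  have h1 : ((RR N).filter (fun A => mm A = m ∧ pp k A = c + m ^ k)).card ≤ (pd c ×ˢ pd c).card := by
    apply Finset.card_le_card_of_injOn (fun A => (A.1 - A.2.2, A.2.1 - A.2.2))
    · rintro ⟨a, b, d⟩ hA
      rw [Finset.mem_coe, Finset.mem_filter, mem_RR] at hA
      obtain ⟨_, h4, h5⟩ := hA
      simp only [mm, pp] at h4 h5
      rw [Finset.mem_coe, Finset.mem_product]
      have e1 : c = (a ^ k - d ^ k) - ((a + b - d) ^ k - b ^ k) := by rw [h4]; linarith
      have e2 : c = (b ^ k - d ^ k) - ((a + b - d) ^ k - a ^ k) := by rw [h4]; linarith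
      constructor
      · apply mem_pd hc
        rw [e1]
        apply dvd_sub (sub_dvd_pow_sub_pow _ _ _)
        have := sub_dvd_pow_sub_pow (a + b - d) b k
        have e3 : a + b - d - b = a - d := by ring
        rwa [e3] at this
      · apply mem_pd hc
        rw [e2]
        apply dvd_sub (sub_dvd_pow_sub_pow _ _ _)
        have := sub_dvd_pow_sub_pow (a + b - d) a k
        have e3 : a + b - d - a = b - d := by ring
        rwa [e3] at this
    · rintro ⟨a, b, d⟩ hA ⟨a', b', d'⟩ hA' heq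
      rw [Finset.mem_coe, Finset.mem_filter] at hA hA'
      have h4 := hA.2.1
      have h4' := hA'.2.1
      simp only [mm] at h4 h4'
      simp only [Prod.mk.injEq] at heq ⊢
      obtain ⟨q1, q2⟩ := heq
      refine ⟨by linarith, by linarith, by linarith⟩
  refine h1.trans ?_
  rw [Finset.card_product]
  have h2 : (pd c).card ≤ 2 * D := (pd_card c).trans (by omega)
  calc (pd c).card * (pd c).card ≤ (2 * D) * (2 * D) := Nat.mul_le_mul h2 h2
    _ = (2 * D) ^ 2 := by ring

theorem c_size (k N : ℕ) (B : ℤ × ℤ × ℤ) (hB : B ∈ RR N) :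
    (pp k B - (mm B) ^ k).natAbs ≤ (3 + 2 ^ k) * N ^ k := by
  obtain ⟨a, b, c⟩ := B
  rw [mem_RR] at hB
  obtain ⟨h1, h2, h3⟩ := hB
  simp only [mm, pp] at h1 h2 h3 ⊢
  have e1 : |a| ^ k ≤ (N : ℤ) ^ k := pow_le_pow_left₀ (abs_nonneg _) (by rw [abs_le]; omega) k
  have e2 : |b| ^ k ≤ (N : ℤ) ^ k := pow_le_pow_left₀ (abs_nonneg _) (by rw [abs_le]; omega) k
  have e3 : |c| ^ k ≤ (N : ℤ) ^ k := pow_le_pow_left₀ (abs_nonneg _) (by rw [abs_le]; omega) k
  have e4 : |a + b - c| ^ k ≤ (2 * (N : ℤ)) ^ k := pow_le_pow_left₀ (abs_nonneg _) (by rw [abs_le]; omega) k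
  rw [← abs_pow] at e1 e2 e3 e4
  have e5 : |a ^ k + b ^ k - c ^ k - (a + b - c) ^ k| ≤ |a ^ k| + |b ^ k| + |c ^ k| + |(a + b - c) ^ k| := by
    refine (abs_sub _ _).trans ?_
    gcongr
    refine (abs_sub _ _).trans ?_
    gcongr
    exact abs_add_le _ _
  have e6 : |a ^ k + b ^ k - c ^ k - (a + b - c) ^ k| ≤ (((3 + 2 ^ k) * N ^ k : ℕ) : ℤ) := by
    rw [mul_pow] at e4
    push_cast
    nlinarith
  rw [Int.abs_eq_natAbs] at e6
  exact_mod_cast e6

theorem J_three (k N D : ℕ) (hk : 1 < k)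
    (hD : ∀ c : ℤ, c ≠ 0 → c.natAbs ≤ (3 + 2 ^ k) * N ^ k → c.natAbs.divisors.card ≤ D) :
    J 3 k N ≤ N ^ 3 * (2 * D) ^ 2 + (3 * N + 1) * (N + (2 * N + 1) * k) ^ 2 := by
  classical
  have h1 : J 3 k N ≤ ((RR N ×ˢ RR N).filter (fun z => mm z.1 = mm z.2 ∧ pp k z.1 = pp k z.2)).card := by
    unfold J
    apply Finset.card_le_card_of_injOn (fun z : (Fin 3 → ℕ) × (Fin 3 → ℕ) =>
      ((((z.1 0 : ℕ) : ℤ), ((z.1 1 : ℕ) : ℤ), ((z.2 0 : ℕ) : ℤ)),
        (((z.2 1 : ℕ) : ℤ), ((z.2 2 : ℕ) : ℤ), ((z.1 2 : ℕ) : ℤ))))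
    · rintro ⟨z, w⟩ hz
      rw [Finset.mem_coe, Finset.mem_filter, Finset.mem_product] at hz
      obtain ⟨⟨g1, g2⟩, g3, g4⟩ := hz
      unfold tup at g1 g2
      rw [Fintype.mem_piFinset] at g1 g2
      simp only [Finset.mem_Icc] at g1 g2
      rw [Fin.sum_univ_three, Fin.sum_univ_three] at g3 g4
      simp only at g3 g4
      rw [Finset.mem_coe, Finset.mem_filter, Finset.mem_product, mem_RR, mem_RR]
      simp only [mm, pp]
      have a0 := g1 0
      have a1 := g1 1
      have a2 := g1 2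
      have b0 := g2 0
      have b1 := g2 1
      have b2 := g2 2
      refine ⟨⟨⟨⟨by omega, by omega⟩, ⟨by omega, by omega⟩, ⟨by omega, by omega⟩⟩,
        ⟨⟨by omega, by omega⟩, ⟨by omega, by omega⟩, ⟨by omega, by omega⟩⟩⟩, by omega, ?_⟩
      have g5 : ((z 0 ^ k + z 1 ^ k + z 2 ^ k : ℕ) : ℤ) = ((w 0 ^ k + w 1 ^ k + w 2 ^ k : ℕ) : ℤ) := by
        exact_mod_cast g4
      push_cast at g5
      linarith
    · rintro ⟨z, w⟩ _ ⟨z', w'⟩ _ heq
      simp only [Prod.mk.injEq] at heq
      obtain ⟨⟨q1, q2, q3⟩, q4, q5, q6⟩ := heq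
      have f1 : z = z' := by
        funext i
        fin_cases i
        · exact_mod_cast q1
        · exact_mod_cast q2
        · exact_mod_cast q6
      have f2 : w = w' := by
        funext i
        fin_cases i
        · exact_mod_cast q3
        · exact_mod_cast q4
        · exact_mod_cast q5
      rw [f1, f2]
  have h2 : ((RR N ×ˢ RR N).filter (fun z => mm z.1 = mm z.2 ∧ pp k z.1 = pp k z.2)).card =
      ∑ B ∈ RR N, ((RR N).filter (fun A => mm A = mm B ∧ pp k A = pp k B)).card := by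
    rw [← Finset.card_sigma]
    apply Finset.card_bij' (fun z _ => (⟨z.2, z.1⟩ : Σ _ : ℤ × ℤ × ℤ, ℤ × ℤ × ℤ))
      (fun y _ => (y.2, y.1))
    · intro z hz
      rw [Finset.mem_filter, Finset.mem_product] at hz
      rw [Finset.mem_sigma, Finset.mem_filter]
      exact ⟨hz.1.2, hz.1.1, hz.2⟩
    · intro y hy
      rw [Finset.mem_sigma, Finset.mem_filter] at hy
      rw [Finset.mem_filter, Finset.mem_product]
      exact ⟨⟨hy.2.1, hy.1⟩, hy.2.2⟩
    · intro z _; rfl
    · intro y _; rfl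
  set E : ℕ := N + (2 * N + 1) * k with hE
  rw [h2, ← Finset.sum_filter_add_sum_filter_not (RR N) (fun B => pp k B = (mm B) ^ k)] at h1
  have h3 : ∑ B ∈ (RR N).filter (fun B => pp k B = (mm B) ^ k),
      ((RR N).filter (fun A => mm A = mm B ∧ pp k A = pp k B)).card ≤ (3 * N + 1) * E ^ 2 := by
    have h4 : ∀ B ∈ (RR N).filter (fun B => pp k B = (mm B) ^ k),
        ((RR N).filter (fun A => mm A = mm B ∧ pp k A = pp k B)).card ≤ E := by
      intro B hB
      rw [Finset.mem_filter] at hB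
      rw [hB.2]
      exact zero_fib k N hk (mm B)
    refine (Finset.sum_le_sum h4).trans ?_
    rw [Finset.sum_const, smul_eq_mul]
    have h5 : ((RR N).filter (fun B => pp k B = (mm B) ^ k)).card ≤ (3 * N + 1) * E := by
      rw [Finset.card_eq_sum_card_fiberwise (f := fun B => mm B) (t := Icc (-(N : ℤ)) (2 * N))]
      · refine (Finset.sum_le_card_nsmul _ _ E ?_).trans ?_
        · intro m _
          rw [Finset.filter_filter]
          refine le_trans (le_of_eq ?_) (zero_fib k N hk m)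
          congr 1
          apply Finset.filter_congr
          intro A _
          constructor
          · rintro ⟨q1, q2⟩; exact ⟨q2, by rw [q1, q2]⟩
          · rintro ⟨q1, q2⟩; exact ⟨by rw [q2, q1], q1⟩
        · rw [smul_eq_mul, Int.card_Icc]
          apply Nat.mul_le_mul_right
          omega
      · intro B hB
        rw [Finset.mem_coe, Finset.mem_filter, mem_RR] at hB
        obtain ⟨⟨q1, q2, q3⟩, _⟩ := hB
        rw [Finset.mem_coe, Finset.mem_Icc]
        simp only [mm]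
        constructor <;> omega
    calc ((RR N).filter (fun B => pp k B = (mm B) ^ k)).card * E ≤ ((3 * N + 1) * E) * E :=
          Nat.mul_le_mul_right _ h5
      _ = (3 * N + 1) * E ^ 2 := by ring
  have h6 : ∑ B ∈ (RR N).filter (fun B => ¬ pp k B = (mm B) ^ k),
      ((RR N).filter (fun A => mm A = mm B ∧ pp k A = pp k B)).card ≤ N ^ 3 * (2 * D) ^ 2 := by
    have h4 : ∀ B ∈ (RR N).filter (fun B => ¬ pp k B = (mm B) ^ k),
        ((RR N).filter (fun A => mm A = mm B ∧ pp k A = pp k B)).card ≤ (2 * D) ^ 2 := by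
      intro B hB
      rw [Finset.mem_filter] at hB
      have hc : pp k B - (mm B) ^ k ≠ 0 := sub_ne_zero.mpr hB.2
      have := nonzero_fib k N D (mm B) (pp k B - (mm B) ^ k) hc (hD _ hc (c_size k N B hB.1))
      rwa [sub_add_cancel] at this
    refine (Finset.sum_le_sum h4).trans ?_
    rw [Finset.sum_const, smul_eq_mul]
    apply Nat.mul_le_mul_right
    refine (Finset.card_filter_le _ _).trans (le_of_eq (RR_card N))
  omega

end Pool.Agent.X17.HW
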