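import Pool.Agent.X17.HW.PlaneB

/-! # Fixed linear coefficient: Hua's inequality and the exceptional set -/

set_option autoImplicit false

open Finset MeasureTheory

namespace Pool.Agent.X17.HW

open Pool.Agent.W928.MW (e sm e_add e_norm e_sub_re e_cont sm_le ev_pow ev_log)
open Pool.Agent.TH181.MW
open Pool.Agent.TH181.MX (wt wt_nonneg wt_sum max_pt)

/-- number of solutions of one equation of degree `k` -/
def H (s k N : ℕ) : ℕ := (((tup s N) ×ˢ (tup s N)).filter (fun z => dl k z = 0)).card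

theorem sm_pow_t (s k N : ℕ) (t ξ : ℝ) : sm k N t ξ ^ s =
    ∑ z ∈ tup s N, e (t * ((∑ i, z i ^ k : ℕ) : ℝ) + ξ * ((∑ i, z i : ℕ) : ℝ)) := by
  unfold Pool.Agent.W928.MW.sm tup
  rw [Finset.sum_pow']
  apply Finset.sum_congr rfl
  intro z _
  rw [← e_sum]
  congr 1
  push_cast
  rw [Finset.mul_sum, Finset.mul_sum, ← Finset.sum_add_distrib]

theorem sm_cos (s k N : ℕ) (t ξ : ℝ) : ‖sm k N t ξ‖ ^ (2 * s) = ∑ z ∈ (tup s N) ×ˢ (tup s N),
    Real.cos (2 * Real.pi * (t * ((dl k z : ℤ) : ℝ) + ξ * ((dl 1 z : ℤ) : ℝ))) := by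
  have h0 : ‖sm k N t ξ‖ ^ (2 * s) = ‖sm k N t ξ ^ s‖ ^ 2 := by
    rw [norm_pow, ← pow_mul, mul_comm]
  have h1 : ((‖sm k N t ξ ^ s‖ ^ 2 : ℝ) : ℂ) = sm k N t ξ ^ s * (starRingEnd ℂ) (sm k N t ξ ^ s) := by
    rw [Complex.mul_conj, Complex.normSq_eq_norm_sq]
  have h2 : ‖sm k N t ξ ^ s‖ ^ 2 = (sm k N t ξ ^ s * (starRingEnd ℂ) (sm k N t ξ ^ s)).re := by
    rw [← h1, Complex.ofReal_re]
  rw [h0, h2, sm_pow_t, map_sum, Finset.sum_mul_sum, ← Finset.sum_product', Complex.re_sum]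
  apply Finset.sum_congr rfl
  intro z _
  rw [e_sub_re]
  congr 1
  unfold dl
  push_cast
  simp only [pow_one]
  ring

theorem int_fix (s k N : ℕ) (u v : ℤ) (huv : u ≤ v) (ξ : ℝ) :
    ∫ t in (u : ℝ)..(v : ℝ), ‖sm k N t ξ‖ ^ (2 * s) ≤ ((v : ℝ) - u) * (H s k N : ℝ) := by
  have huv' : (u : ℝ) ≤ (v : ℝ) := by exact_mod_cast huv
  simp_rw [sm_cos]
  rw [intervalIntegral.integral_finsetSum]
  · have h1 : ∀ z ∈ (tup s N) ×ˢ (tup s N),
        ∫ t in (u : ℝ)..(v : ℝ), Real.cos (2 * Real.pi * (t * ((dl k z : ℤ) : ℝ) + ξ * ((dl 1 z : ℤ) : ℝ))) ≤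
        if dl k z = 0 then (v : ℝ) - u else 0 := by
      intro z _
      split_ifs with h
      · rw [h]
        simp only [Int.cast_zero, mul_zero, zero_add, intervalIntegral.integral_const, smul_eq_mul]
        have := Real.cos_le_one (2 * Real.pi * (ξ * ((dl 1 z : ℤ) : ℝ)))
        nlinarith
      · apply le_of_eq
        have hn : ((dl k z : ℤ) : ℝ) ≠ 0 := by exact_mod_cast h
        have hc : 2 * Real.pi * ((dl k z : ℤ) : ℝ) ≠ 0 := by
          have := Real.pi_pos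
          positivity
        have h2 : ∀ t : ℝ, Real.cos (2 * Real.pi * (t * ((dl k z : ℤ) : ℝ) + ξ * ((dl 1 z : ℤ) : ℝ))) =
            Real.cos ((2 * Real.pi * ((dl k z : ℤ) : ℝ)) * t + 2 * Real.pi * (ξ * ((dl 1 z : ℤ) : ℝ))) := by
          intro t; congr 1; ring
        simp_rw [h2]
        rw [intervalIntegral.integral_comp_mul_add (fun x => Real.cos x) hc, integral_cos]
        have h3 : Real.sin (2 * Real.pi * ((dl k z : ℤ) : ℝ) * (v : ℝ) + 2 * Real.pi * (ξ * ((dl 1 z : ℤ) : ℝ))) =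
            Real.sin (2 * Real.pi * ((dl k z : ℤ) : ℝ) * (u : ℝ) + 2 * Real.pi * (ξ * ((dl 1 z : ℤ) : ℝ))) := by
          have e1 : 2 * Real.pi * ((dl k z : ℤ) : ℝ) * (v : ℝ) + 2 * Real.pi * (ξ * ((dl 1 z : ℤ) : ℝ)) =
              2 * Real.pi * ((dl k z : ℤ) : ℝ) * (u : ℝ) + 2 * Real.pi * (ξ * ((dl 1 z : ℤ) : ℝ)) +
                ((dl k z * (v - u) : ℤ) : ℝ) * (2 * Real.pi) := by
            push_cast; ring
          rw [e1, Real.sin_add_int_mul_two_pi]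
        rw [h3, sub_self, smul_zero]
    refine (Finset.sum_le_sum h1).trans (le_of_eq ?_)
    rw [← Finset.sum_filter, Finset.sum_const, nsmul_eq_mul, mul_comm]
    rfl
  · intro z _
    apply Continuous.intervalIntegrable
    fun_prop

theorem sm_cont1 (k N : ℕ) (ξ : ℝ) : Continuous (fun t : ℝ => sm k N t ξ) := by
  unfold Pool.Agent.W928.MW.sm
  refine continuous_finsetSum _ (fun n _ => ?_)
  exact e_cont.comp (by fun_prop)

theorem TT_re0 (k N j : ℕ) (t : ℝ) :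
    (∑ l ∈ LS (Icc (-(N : ℤ)) N) j, TT k N t 0 l).re =
      ∑ z ∈ Lam N j, Real.cos (2 * Real.pi * (t * ((ph (fun n => n ^ k) z.1 z.2 : ℤ) : ℝ))) := by
  unfold Lam
  rw [Finset.sum_sigma, Complex.re_sum]
  apply Finset.sum_congr rfl
  intro l _
  unfold TT
  rw [Complex.re_sum]
  apply Finset.sum_congr rfl
  intro n _
  rw [e_re]
  congr 2
  simp

/-- one step of Hua's inequality for one equation -/
theorem H_step (s r k N j D : ℕ) (hj : 1 ≤ j) (hjk : j < k) (hs : 2 * r = 2 ^ j)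
    (hD : ∀ z ∈ (tup s N) ×ˢ (tup s N), dl k z ≠ 0 → (dl k z).natAbs.divisors.card ≤ D) :
    (H (s + r) k N : ℝ) ≤ (2 * (N : ℝ) + 1) ^ (2 ^ j - j - 1) *
      ((((j + k) * (2 * N + 1) ^ j : ℕ) : ℝ) * (H s k N : ℝ) +
        (((2 * D) ^ j * k : ℕ) : ℝ) * (((tup s N) ×ˢ (tup s N)).card : ℝ)) := by
  classical
  obtain ⟨j', rfl⟩ : ∃ j', j = j' + 1 := ⟨j - 1, by omega⟩
  set B : ℝ := (2 * (N : ℝ) + 1) ^ (2 ^ (j' + 1) - (j' + 1) - 1) with hB
  have hB0 : 0 ≤ B := by positivity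
  set S : ℝ → ℝ := fun t => ∑ z ∈ Lam N (j' + 1),
    Real.cos (2 * Real.pi * (t * ((ph (fun n => n ^ k) z.1 z.2 : ℤ) : ℝ))) with hS
  have hcs : ∀ s : ℕ, Continuous (fun t : ℝ => ‖sm k N t 0‖ ^ (2 * s)) := fun s =>
    (sm_cont1 k N 0).norm.pow (2 * s)
  have h1 : ∀ t : ℝ, ‖sm k N t 0‖ ^ (2 * (s + r)) ≤ B * S t * ‖sm k N t 0‖ ^ (2 * s) := by
    intro t
    have h2 := weyl' k N j' t 0
    rw [TT_re0 k N (j' + 1)] at h2
    have e1 : 2 * (s + r) = 2 ^ (j' + 1) + 2 * s := by rw [← hs]; ring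
    rw [e1, pow_add]
    exact mul_le_mul_of_nonneg_right h2 (by positivity)
  have hc : Continuous S := by
    rw [hS]; fun_prop
  have hz : ∀ (s : ℕ) (t : ℝ), ‖sm k N t 0‖ ^ (2 * s) = ∑ z ∈ (tup s N) ×ˢ (tup s N),
      Real.cos (2 * Real.pi * (t * ((dl k z : ℤ) : ℝ))) := by
    intro s t
    rw [sm_cos]
    apply Finset.sum_congr rfl
    intro z _
    congr 2
    ring
  have h2 : ∫ t in (0 : ℝ)..1, ‖sm k N t 0‖ ^ (2 * (s + r)) = (H (s + r) k N : ℝ) := by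
    simp_rw [hz]
    rw [intervalIntegral.integral_finsetSum]
    · have h3 : ∀ z ∈ (tup (s + r) N) ×ˢ (tup (s + r) N),
          ∫ t in (0 : ℝ)..1, Real.cos (2 * Real.pi * (t * ((dl k z : ℤ) : ℝ))) = if dl k z = 0 then (1 : ℝ) else 0 := by
        intro z _
        have := int_cos 0 1 (dl k z)
        simpa using this
      rw [Finset.sum_congr rfl h3, ← Finset.natCast_card_filter]
      rfl
    · intro z _
      apply Continuous.intervalIntegrable; fun_prop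
  have h3 : ∫ t in (0 : ℝ)..1, ‖sm k N t 0‖ ^ (2 * (s + r)) ≤
      ∫ t in (0 : ℝ)..1, B * S t * ‖sm k N t 0‖ ^ (2 * s) := by
    apply intervalIntegral.integral_mono_on (by norm_num)
    · exact (hcs _).intervalIntegrable _ _
    · apply Continuous.intervalIntegrable
      exact (continuous_const.mul hc).mul (hcs _)
    · intro t _
      exact h1 t
  have h4 : ∫ t in (0 : ℝ)..1, B * S t * ‖sm k N t 0‖ ^ (2 * s) =
      B * ∑ z ∈ (tup s N) ×ˢ (tup s N), ∑ y ∈ Lam N (j' + 1),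
        ((if ph (fun n => n ^ k) y.1 y.2 = dl k z then (1 : ℝ) else 0) +
          (if ph (fun n => n ^ k) y.1 y.2 = -dl k z then 1 else 0)) / 2 := by
    have h5 : ∀ t : ℝ, B * S t * ‖sm k N t 0‖ ^ (2 * s) = B * ∑ z ∈ (tup s N) ×ˢ (tup s N), ∑ y ∈ Lam N (j' + 1),
        Real.cos (2 * Real.pi * (t * ((ph (fun n => n ^ k) y.1 y.2 : ℤ) : ℝ))) *
          Real.cos (2 * Real.pi * (t * ((dl k z : ℤ) : ℝ))) := by
      intro t
      rw [hz, hS, mul_assoc, Finset.sum_mul_sum, Finset.sum_comm]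
    simp_rw [h5]
    rw [intervalIntegral.integral_const_mul, intervalIntegral.integral_finsetSum]
    · congr 1
      apply Finset.sum_congr rfl
      intro z _
      rw [intervalIntegral.integral_finsetSum]
      · apply Finset.sum_congr rfl
        intro y _
        exact int_two _ _
      · intro y _
        apply Continuous.intervalIntegrable; fun_prop
    · intro z _
      apply Continuous.intervalIntegrable; fun_prop
  rw [h2, h4] at h3
  refine h3.trans (mul_le_mul_of_nonneg_left ?_ hB0)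
  -- the count
  have h6 : ∀ z ∈ (tup s N) ×ˢ (tup s N), ∑ y ∈ Lam N (j' + 1),
        ((if ph (fun n => n ^ k) y.1 y.2 = dl k z then (1 : ℝ) else 0) +
          (if ph (fun n => n ^ k) y.1 y.2 = -dl k z then 1 else 0)) / 2 ≤
      (if dl k z = 0 then ((((j' + 1) + k) * (2 * N + 1) ^ (j' + 1) : ℕ) : ℝ) else 0) +
        (((2 * D) ^ (j' + 1) * k : ℕ) : ℝ) := by
    intro z hz
    rw [← Finset.sum_div, Finset.sum_add_distrib, ← Finset.natCast_card_filter,
      ← Finset.natCast_card_filter]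
    split_ifs with h0
    · rw [h0, neg_zero]
      have h7 := Lam_zero k N (j' + 1) hjk
      have h8 : (((Lam N (j' + 1)).filter (fun z => ph (fun n => n ^ k) z.1 z.2 = 0)).card : ℝ) ≤
        ((((j' + 1) + k) * (2 * N + 1) ^ (j' + 1) : ℕ) : ℝ) := by exact_mod_cast h7
      have h9 : (0 : ℝ) ≤ (((2 * D) ^ (j' + 1) * k : ℕ) : ℝ) := by positivity
      linarith
    · have h7 := Lam_nonzero k N (j' + 1) D hjk (dl k z) h0 (hD z hz h0)
      have h8 := Lam_nonzero k N (j' + 1) D hjk (-dl k z) (neg_ne_zero.mpr h0)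
        (by rw [Int.natAbs_neg]; exact hD z hz h0)
      have h7' : (((Lam N (j' + 1)).filter (fun y => ph (fun n => n ^ k) y.1 y.2 = dl k z)).card : ℝ) ≤
        (((2 * D) ^ (j' + 1) * k : ℕ) : ℝ) := by exact_mod_cast h7
      have h8' : (((Lam N (j' + 1)).filter (fun y => ph (fun n => n ^ k) y.1 y.2 = -dl k z)).card : ℝ) ≤
        (((2 * D) ^ (j' + 1) * k : ℕ) : ℝ) := by exact_mod_cast h8
      linarith
  refine (Finset.sum_le_sum h6).trans (le_of_eq ?_)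
  unfold H
  rw [Finset.sum_add_distrib, ← Finset.sum_filter, Finset.sum_const, Finset.sum_const]
  simp only [nsmul_eq_mul]
  ring

/-- `H ≪ N ^ (β + ρ)` for every `ρ > 0` -/
def Ho (s k : ℕ) (β : ℝ) : Prop := ∀ ρ : ℝ, 0 < ρ → ∃ C : ℝ, 0 < C ∧ ∀ N : ℕ, 1 ≤ N →
  (H s k N : ℝ) ≤ C * (N : ℝ) ^ (β + ρ)

theorem dl_le' (s k N : ℕ) (z : (Fin s → ℕ) × (Fin s → ℕ)) (hz : z ∈ (tup s N) ×ˢ (tup s N)) :
    (dl k z).natAbs ≤ s * N ^ k := by
  rw [Finset.mem_product] at hz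
  have h0 : ∀ w ∈ tup s N, ∑ i, w i ^ k ≤ s * N ^ k := by
    intro w hw
    unfold tup at hw
    rw [Fintype.mem_piFinset] at hw
    calc ∑ i, w i ^ k ≤ ∑ _i : Fin s, N ^ k :=
          Finset.sum_le_sum (fun i _ => Nat.pow_le_pow_left (Finset.mem_Icc.mp (hw i)).2 k)
      _ = s * N ^ k := by simp
  have h1 := h0 _ hz.1
  have h2 := h0 _ hz.2
  unfold dl
  omega

theorem Ho_step (s r k j : ℕ) (β : ℝ) (hj : 1 ≤ j) (hjk : j < k) (hr : 2 * r = 2 ^ j)
    (h : Ho s k β) (hβ : 2 * (s : ℝ) - j ≤ β) : Ho (s + r) k (β + 2 ^ j - 1) := by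
  intro ρ hρ
  obtain ⟨C1, hC1, h1⟩ := h ρ hρ
  have hj0 : (0 : ℝ) < j := by
    have : 0 < j := by omega
    exact_mod_cast this
  obtain ⟨C2, hC2, h2⟩ := exists_D s k (ρ / j) (by positivity)
  refine ⟨3 ^ (2 ^ j - j - 1) * (((j : ℝ) + k) * 3 ^ j * C1 + (2 * C2) ^ j * k), ?_, ?_⟩
  · have : 0 < (j : ℝ) + k := by positivity
    positivity
  intro N hN
  have hN1 : (1 : ℝ) ≤ N := by exact_mod_cast hN
  have hN0 : (0 : ℝ) < N := by linarith
  obtain ⟨D, hD1, hD2⟩ := h2 N hN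
  have h3 := H_step s r k N j D hj hjk hr (fun z hz hne => hD2 _ hne (dl_le' _ _ _ z hz))
  refine h3.trans ?_
  have e1 : (2 * (N : ℝ) + 1) ≤ 3 * N := by linarith
  have hjj : j + 1 ≤ 2 ^ j := Nat.lt_two_pow_self
  have e2 : (2 * (N : ℝ) + 1) ^ (2 ^ j - j - 1) ≤ 3 ^ (2 ^ j - j - 1) * (N : ℝ) ^ ((2 : ℝ) ^ j - j - 1) := by
    refine (pow_le_pow_left₀ (by positivity) e1 _).trans (le_of_eq ?_)
    rw [mul_pow]
    congr 1
    rw [← Real.rpow_natCast]
    congr 1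
    rw [Nat.cast_sub (by omega), Nat.cast_sub (by omega)]
    push_cast
    ring
  have e3 : ((((j + k) * (2 * N + 1) ^ j : ℕ) : ℝ) * (H s k N : ℝ)) ≤
      (((j : ℝ) + k) * 3 ^ j * C1) * (N : ℝ) ^ ((j : ℝ) + β + ρ) := by
    have g1 : (((j + k) * (2 * N + 1) ^ j : ℕ) : ℝ) ≤ ((j : ℝ) + k) * 3 ^ j * (N : ℝ) ^ (j : ℝ) := by
      push_cast
      rw [Real.rpow_natCast, mul_assoc, ← mul_pow]
      apply mul_le_mul_of_nonneg_left _ (by positivity)
      exact pow_le_pow_left₀ (by positivity) e1 j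
    calc _ ≤ (((j : ℝ) + k) * 3 ^ j * (N : ℝ) ^ (j : ℝ)) * (C1 * (N : ℝ) ^ (β + ρ)) :=
          mul_le_mul g1 (h1 N hN) (by positivity) (by positivity)
      _ = (((j : ℝ) + k) * 3 ^ j * C1) * ((N : ℝ) ^ (j : ℝ) * (N : ℝ) ^ (β + ρ)) := by ring
      _ = _ := by
          rw [← Real.rpow_add hN0]
          congr 2
          ring
  have e4 : (((2 * D) ^ j * k : ℕ) : ℝ) * (((tup s N) ×ˢ (tup s N)).card : ℝ) ≤
      ((2 * C2) ^ j * k) * (N : ℝ) ^ ((j : ℝ) + β + ρ) := by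
    have g1 : (((2 * D) ^ j * k : ℕ) : ℝ) ≤ (2 * C2) ^ j * k * (N : ℝ) ^ ρ := by
      push_cast
      have g2 : (2 * (D : ℝ)) ^ j ≤ (2 * C2) ^ j * (N : ℝ) ^ ρ := by
        have g3 : 2 * (D : ℝ) ≤ (2 * C2) * (N : ℝ) ^ (ρ / j) := by linarith
        refine (pow_le_pow_left₀ (by positivity) g3 j).trans (le_of_eq ?_)
        rw [mul_pow (2 * C2)]
        congr 1
        rw [← Real.rpow_natCast, ← Real.rpow_mul hN0.le]
        congr 1
        field_simp
      calc (2 * (D : ℝ)) ^ j * k ≤ ((2 * C2) ^ j * (N : ℝ) ^ ρ) * k :=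
            mul_le_mul_of_nonneg_right g2 (by positivity)
        _ = _ := by ring
    have g2 : (((tup s N) ×ˢ (tup s N)).card : ℝ) = (N : ℝ) ^ (2 * (s : ℝ)) := by
      rw [Finset.card_product, tup_card]
      push_cast
      rw [← pow_add, ← Real.rpow_natCast]
      congr 1
      push_cast
      ring
    rw [g2]
    calc _ ≤ ((2 * C2) ^ j * k * (N : ℝ) ^ ρ) * (N : ℝ) ^ (2 * (s : ℝ)) :=
          mul_le_mul_of_nonneg_right g1 (by positivity)
      _ = ((2 * C2) ^ j * k) * ((N : ℝ) ^ ρ * (N : ℝ) ^ (2 * (s : ℝ))) := by ring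
      _ ≤ ((2 * C2) ^ j * k) * (N : ℝ) ^ ((j : ℝ) + β + ρ) := by
          apply mul_le_mul_of_nonneg_left _ (by positivity)
          rw [← Real.rpow_add hN0]
          apply Real.rpow_le_rpow_of_exponent_le hN1
          linarith
  calc _ ≤ (3 ^ (2 ^ j - j - 1) * (N : ℝ) ^ ((2 : ℝ) ^ j - j - 1)) *
        ((((j : ℝ) + k) * 3 ^ j * C1) * (N : ℝ) ^ ((j : ℝ) + β + ρ) +
          ((2 * C2) ^ j * k) * (N : ℝ) ^ ((j : ℝ) + β + ρ)) :=
        mul_le_mul e2 (add_le_add e3 e4) (by positivity) (by positivity)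
    _ = (3 ^ (2 ^ j - j - 1) * (((j : ℝ) + k) * 3 ^ j * C1 + (2 * C2) ^ j * k)) *
        ((N : ℝ) ^ ((2 : ℝ) ^ j - j - 1) * (N : ℝ) ^ ((j : ℝ) + β + ρ)) := by ring
    _ = _ := by
        rw [← Real.rpow_add hN0]
        congr 2
        ring

theorem Ho_one (k : ℕ) (hk : 1 ≤ k) : Ho 1 k 1 := by
  intro ρ hρ
  refine ⟨1, one_pos, ?_⟩
  intro N hN
  have hN1 : (1 : ℝ) ≤ N := by exact_mod_cast hN
  have h1 : H 1 k N ≤ (tup 1 N).card := by
    unfold H
    apply Finset.card_le_card_of_injOn (fun z : (Fin 1 → ℕ) × (Fin 1 → ℕ) => z.1)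
    · intro z hz
      rw [Finset.mem_coe, Finset.mem_filter, Finset.mem_product] at hz
      exact hz.1.1
    · rintro ⟨z, w⟩ hz ⟨z', w'⟩ hz' heq
      rw [Finset.mem_coe, Finset.mem_filter] at hz hz'
      simp only at heq
      have key : ∀ a b : Fin 1 → ℕ, dl k (a, b) = 0 → b = a := by
        intro a b hab
        unfold dl at hab
        simp only [Finset.univ_unique, Fin.default_eq_zero, Finset.sum_singleton] at hab
        have h3 : a 0 ^ k = b 0 ^ k := by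
          have := sub_eq_zero.mp hab
          exact_mod_cast this
        have h4 : a 0 = b 0 := Nat.pow_left_injective (by omega) h3
        funext i
        fin_cases i
        exact h4.symm
      have g1 := key z w hz.2
      have g2 := key z' w' hz'.2
      rw [g1, g2, heq]
  rw [tup_card, pow_one] at h1
  rw [one_mul]
  calc (H 1 k N : ℝ) ≤ N := by exact_mod_cast h1
    _ = (N : ℝ) ^ (1 : ℝ) := (Real.rpow_one _).symm
    _ ≤ (N : ℝ) ^ (1 + ρ) := Real.rpow_le_rpow_of_exponent_le hN1 (by linarith)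

/-- Hua's inequality -/
theorem Ho_main (k j : ℕ) (hj : 1 ≤ j) (hjk : j ≤ k) : Ho (2 ^ (j - 1)) k ((2 : ℝ) ^ j - j) := by
  induction j, hj using Nat.le_induction with
  | base =>
    have h := Ho_one k (by omega)
    have e1 : ((2 : ℝ) ^ 1 - ((1 : ℕ) : ℝ)) = 1 := by norm_num
    rw [e1]
    exact h
  | succ j hj ih =>
    have h := ih (by omega)
    have hp : 2 * 2 ^ (j - 1) = 2 ^ j := by
      rw [← pow_succ']
      congr 1
      omega
    have hpr : 2 * ((2 ^ (j - 1) : ℕ) : ℝ) = 2 ^ j := by exact_mod_cast hp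
    have h2 := Ho_step (2 ^ (j - 1)) (2 ^ (j - 1)) k j _ hj (by omega) hp h (by
      rw [hpr])
    have e1 : 2 ^ (j + 1 - 1) = 2 ^ (j - 1) + 2 ^ (j - 1) := by
      rw [Nat.add_sub_cancel]
      omega
    rw [e1]
    have e2 : (2 : ℝ) ^ (j + 1) - ((j + 1 : ℕ) : ℝ) = (2 : ℝ) ^ j - j + 2 ^ j - 1 := by
      push_cast
      rw [pow_succ]
      ring
    rw [e2]
    exact h2

end Pool.Agent.X17.HW
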