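import Pool.Agent.X17.HW.Slice

/-! # Fixed linear coefficient: dimension of the exceptional set -/

set_option autoImplicit false

open Finset MeasureTheory

namespace Pool.Agent.X17.HW

open Pool.Agent.W928.MW (e sm e_add e_norm e_sub_re e_cont sm_le ev_pow ev_log)
open Pool.Agent.TH181.MW
open Pool.Agent.TH181.MX (wt wt_nonneg wt_sum max_pt)

/-- measure of the set of `t` where an incomplete sum with given `ξ` is large -/
theorem meas_fix (s k N : ℕ) (ξ : ℝ) (hN : 1 ≤ N) (u v : ℤ) (lam : ℝ) (huv : u ≤ v) (hl : 0 < lam) :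
    volume {t : ℝ | t ∈ Set.Icc (u : ℝ) (v : ℝ) ∧ ∃ m : ℕ, m ≤ N ∧ lam ≤ ‖sm k m t ξ‖} ≤
      ENNReal.ofReal (((v : ℝ) - u) * ((2 + Real.log N) ^ (2 * s) * (H s k N : ℝ)) / lam ^ (2 * s)) := by
  have hN' : (1 : ℝ) ≤ N := by exact_mod_cast hN
  have hN0 : (0 : ℝ) < N := by linarith
  have huv' : (u : ℝ) ≤ (v : ℝ) := by exact_mod_cast huv
  set Wt : ℝ := ∑ b ∈ range N, wt N b with hWt
  have hWle : Wt ≤ 2 + Real.log N := wt_sum N hN
  have hW1 : 1 ≤ Wt := by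
    have h1 : wt N 0 ≤ Wt := Finset.single_le_sum (f := fun b => wt N b)
      (fun b hb => wt_nonneg N b (Finset.mem_range.mp hb)) (Finset.mem_range.mpr (by omega))
    have h2 : wt N 0 = 1 := by unfold wt; simp
    linarith
  have hW0 : 0 < Wt := by linarith
  set G : ℝ → ℝ := fun t => Wt ^ (2 * s) * ∑ b ∈ range N, (wt N b / Wt) * ‖sm k N t (ξ + (b : ℝ) / N)‖ ^ (2 * s) with hG
  have hGc : Continuous G := by
    rw [hG]
    refine continuous_const.mul (continuous_finsetSum _ (fun b _ => ?_))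
    exact continuous_const.mul ((sm_cont1 k N _).norm.pow (2 * s))
  have hG0 : ∀ x, 0 ≤ G x := by
    intro x
    rw [hG]
    apply mul_nonneg (by positivity)
    apply Finset.sum_nonneg
    intro b hb
    have := wt_nonneg N b (Finset.mem_range.mp hb)
    positivity
  have hpt : ∀ (t : ℝ) (m : ℕ), m ≤ N → ‖sm k m t ξ‖ ^ (2 * s) ≤ G t := by
    intro t m hm
    have h1 := max_pt N m hN hm (fun n => e (t * (n : ℝ) ^ k)) ξ
    rw [← sm_form] at h1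
    have h2 : ∑ b ∈ range N, wt N b * ‖∑ n ∈ Icc 1 N, e (t * (n : ℝ) ^ k) * e ((ξ + b / N) * n)‖ =
        Wt * ∑ b ∈ range N, (wt N b / Wt) * ‖sm k N t (ξ + (b : ℝ) / N)‖ := by
      rw [Finset.mul_sum]
      apply Finset.sum_congr rfl
      intro b _
      rw [← sm_form]
      field_simp
    rw [h2] at h1
    have h3 := pow_le_pow_left₀ (norm_nonneg _) h1 (2 * s)
    refine h3.trans ?_
    rw [mul_pow, hG]
    apply mul_le_mul_of_nonneg_left _ (by positivity)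
    apply Real.pow_arith_mean_le_arith_mean_pow
    · intro b hb
      have := wt_nonneg N b (Finset.mem_range.mp hb)
      positivity
    · rw [← Finset.sum_div, ← hWt, div_self hW0.ne']
    · intro b _
      exact norm_nonneg _
  have hint : ∫ x in (u : ℝ)..(v : ℝ), G x ≤ ((v : ℝ) - u) * ((2 + Real.log N) ^ (2 * s) * (H s k N : ℝ)) := by
    rw [hG, intervalIntegral.integral_const_mul, intervalIntegral.integral_finsetSum]
    · have h1 : ∀ b ∈ range N, ∫ x in (u : ℝ)..(v : ℝ), (wt N b / Wt) * ‖sm k N x (ξ + (b : ℝ) / N)‖ ^ (2 * s) ≤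
          (wt N b / Wt) * (((v : ℝ) - u) * (H s k N : ℝ)) := by
        intro b hb
        rw [intervalIntegral.integral_const_mul]
        have := wt_nonneg N b (Finset.mem_range.mp hb)
        exact mul_le_mul_of_nonneg_left (int_fix s k N u v huv _) (by positivity)
      have h2 := Finset.sum_le_sum h1
      rw [← Finset.sum_mul, ← Finset.sum_div, ← hWt, div_self hW0.ne', one_mul] at h2
      have hK : 0 ≤ ((v : ℝ) - u) * (H s k N : ℝ) := by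
        apply mul_nonneg (by linarith) (by positivity)
      calc Wt ^ (2 * s) * ∑ b ∈ range N, ∫ x in (u : ℝ)..(v : ℝ), (wt N b / Wt) * ‖sm k N x (ξ + (b : ℝ) / N)‖ ^ (2 * s)
          ≤ Wt ^ (2 * s) * (((v : ℝ) - u) * (H s k N : ℝ)) := mul_le_mul_of_nonneg_left h2 (by positivity)
        _ ≤ (2 + Real.log N) ^ (2 * s) * (((v : ℝ) - u) * (H s k N : ℝ)) := by
            apply mul_le_mul_of_nonneg_right _ hK
            exact pow_le_pow_left₀ hW0.le hWle (2 * s)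
        _ = ((v : ℝ) - u) * ((2 + Real.log N) ^ (2 * s) * (H s k N : ℝ)) := by ring
    · intro b _
      apply Continuous.intervalIntegrable
      exact continuous_const.mul ((sm_cont1 k N _).norm.pow (2 * s))
  set ρ : ℝ := lam ^ (2 * s) with hρ
  have hρ0 : 0 < ρ := by positivity
  have hsub : {t : ℝ | t ∈ Set.Icc (u : ℝ) (v : ℝ) ∧ ∃ m : ℕ, m ≤ N ∧ lam ≤ ‖sm k m t ξ‖} ⊆
      {x : ℝ | ρ ≤ G x} ∩ Set.Icc (u : ℝ) (v : ℝ) := by
    rintro x ⟨hx, m, hm, hξ⟩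
    exact ⟨(pow_le_pow_left₀ hl.le hξ (2 * s)).trans (hpt x m hm), hx⟩
  have hmeas : MeasurableSet {x : ℝ | ρ ≤ G x} := (isClosed_le continuous_const hGc).measurableSet
  have hint' : Integrable G (volume.restrict (Set.Icc (u : ℝ) (v : ℝ))) := (hGc.continuousOn).integrableOn_Icc
  have h3 := mul_meas_ge_le_integral_of_nonneg (μ := volume.restrict (Set.Icc (u : ℝ) (v : ℝ))) (f := G)
    (Filter.Eventually.of_forall hG0) hint' ρ
  have h4 : ∫ x, G x ∂(volume.restrict (Set.Icc (u : ℝ) (v : ℝ))) = ∫ x in (u : ℝ)..(v : ℝ), G x := by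
    rw [intervalIntegral.integral_of_le huv', integral_Icc_eq_integral_Ioc]
  rw [h4] at h3
  have h5 : (volume.restrict (Set.Icc (u : ℝ) (v : ℝ))).real {x : ℝ | ρ ≤ G x} =
      (volume ({x : ℝ | ρ ≤ G x} ∩ Set.Icc (u : ℝ) (v : ℝ))).toReal := by
    unfold Measure.real
    rw [Measure.restrict_apply hmeas]
  rw [h5] at h3
  have hfin : volume ({x : ℝ | ρ ≤ G x} ∩ Set.Icc (u : ℝ) (v : ℝ)) ≠ ⊤ := by
    refine ne_top_of_le_ne_top ?_ (measure_mono Set.inter_subset_right)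
    rw [Real.volume_Icc]
    exact ENNReal.ofReal_ne_top
  refine (measure_mono hsub).trans ?_
  rw [← ENNReal.ofReal_toReal hfin]
  apply ENNReal.ofReal_le_ofReal
  rw [le_div_iff₀ hρ0, mul_comm]
  exact h3.trans hint

/-- leading coefficients bad at scale `2 ^ i`, given `ξ` -/
def BF (k : ℕ) (ξ θ : ℝ) (j : ℤ) (i : ℕ) : Set ℝ :=
  {t : ℝ | t ∈ Set.Icc (j : ℝ) ((j : ℝ) + 1) ∧ ∃ M : ℕ, M ≤ 2 ^ i ∧ 2 ^ i ≤ 2 * M ∧
    (M : ℝ) ^ θ < ‖sm k M t ξ‖}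

theorem coverF (s k : ℕ) (ξ β θ : ℝ) (hθ : 0 ≤ θ) (hM : Ho s k β)
    (ε' : ℝ) (hε' : 0 < ε') (j : ℤ) :
    ∃ i0 : ℕ, ∀ i : ℕ, i0 ≤ i → ∃ S : Finset ℝ,
      (S.card : ℝ) ≤ ((2 : ℝ) ^ i) ^ (β + k - 2 * s * θ + 3 * ε') ∧
      BF k ξ θ j i ⊆ ⋃ x ∈ S, Set.Icc x (x + ((2 : ℝ) ^ i) ^ (-(k : ℝ))) := by
  obtain ⟨C, hC0, hC⟩ := hM ε' hε'
  set c2 : ℝ := 1 + 2 * Real.pi * 2 ^ k with hc2
  have hc2' : 0 < c2 := by positivity
  obtain ⟨i1, h1⟩ := ev_log (ε' / (2 * s + 1)) (by positivity) 1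
  obtain ⟨i3, h3⟩ := ev_pow ε' hε' (3 * C * ((2 : ℝ) ^ θ * c2) ^ (2 * s))
  refine ⟨i1 + i3, fun i hi => ?_⟩
  have g1 := h1 i (by omega)
  have g3 := h3 i (by omega)
  set X : ℝ := (2 : ℝ) ^ i with hX
  have hX1 : (1 : ℝ) ≤ X := one_le_pow₀ (by norm_num)
  have hX0 : (0 : ℝ) < X := by positivity
  have hNX : (((2 ^ i : ℕ) : ℕ) : ℝ) = X := by push_cast; rfl
  have hlog0 : 0 ≤ Real.log X := Real.log_nonneg hX1
  set μ : ℝ := X ^ θ / ((2 : ℝ) ^ θ * c2) with hμ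
  have hμ0 : 0 < μ := by positivity
  set δ : ℝ := X ^ (-(k : ℝ)) with hδ
  have hδ' : δ = 1 / X ^ k := by
    rw [hδ, Real.rpow_neg hX0.le, Real.rpow_natCast, one_div]
  have hδ0 : 0 < δ := by positivity
  have hδ1 : δ ≤ 1 := by
    rw [hδ', div_le_one (by positivity)]
    exact one_le_pow₀ hX1
  set F : Set ℝ := {t : ℝ | t ∈ Set.Icc (((j - 1 : ℤ)) : ℝ) (((j + 2 : ℤ)) : ℝ) ∧
    ∃ m : ℕ, m ≤ 2 ^ i ∧ μ ≤ ‖sm k m t ξ‖} with hF
  have key2 : ∀ t ∈ BF k ξ θ j i, ∀ t' : ℝ, |t' - t| ≤ δ → t' ∈ F := by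
    rintro t ⟨ht1, M, hM1, hM2, hlt⟩ t' htt
    have htt' := abs_le.mp htt
    refine ⟨⟨by push_cast; linarith [ht1.1, htt'.1], by push_cast; linarith [ht1.2, htt'.2]⟩, ?_⟩
    by_contra hcon
    push Not at hcon
    have h6 := shift_le k (2 ^ i) M t t' ξ μ Nat.one_le_two_pow hM1 hμ0.le
      (by rw [hNX, ← hδ', abs_sub_comm]; exact htt) (fun m hm => (hcon m hm).le)
    have h7 : X / 2 ≤ (M : ℝ) := by
      have : ((2 ^ i : ℕ) : ℝ) ≤ ((2 * M : ℕ) : ℝ) := by exact_mod_cast hM2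
      rw [hNX] at this
      push_cast at this
      linarith
    have h8 : (X / 2) ^ θ ≤ (M : ℝ) ^ θ := Real.rpow_le_rpow (by positivity) h7 hθ
    have h9 : (X / 2) ^ θ = X ^ θ / (2 : ℝ) ^ θ := Real.div_rpow hX0.le (by norm_num) θ
    have h10 : (1 + 2 * Real.pi * 2 ^ k) * μ = X ^ θ / (2 : ℝ) ^ θ := by
      rw [hμ, ← hc2]
      field_simp
    have h12 : (M : ℝ) ^ θ < (M : ℝ) ^ θ := by
      calc (M : ℝ) ^ θ < ‖sm k M t ξ‖ := hlt
        _ ≤ (1 + 2 * Real.pi * 2 ^ k) * μ := h6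
        _ = X ^ θ / (2 : ℝ) ^ θ := h10
        _ = (X / 2) ^ θ := h9.symm
        _ ≤ (M : ℝ) ^ θ := h8
    exact lt_irrefl _ h12
  -- measure of F
  have h5 := meas_fix s k (2 ^ i) ξ Nat.one_le_two_pow (j - 1) (j + 2) μ (by omega) hμ0
  rw [hNX] at h5
  have hJ := hC (2 ^ i) Nat.one_le_two_pow
  rw [hNX] at hJ
  have hLp : (2 + Real.log X) ^ (2 * s) ≤ X ^ ε' := by
    have h6 : 2 + Real.log X ≤ X ^ (ε' / (2 * s + 1)) := by
      rw [one_mul] at g1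
      linarith
    calc (2 + Real.log X) ^ (2 * s) ≤ (X ^ (ε' / (2 * s + 1))) ^ (2 * s) :=
          pow_le_pow_left₀ (by linarith) h6 _
      _ = X ^ (ε' / (2 * s + 1) * ((2 * s : ℕ) : ℝ)) := by
          rw [← Real.rpow_natCast, ← Real.rpow_mul hX0.le]
      _ ≤ X ^ ε' := by
          apply Real.rpow_le_rpow_of_exponent_le hX1
          push_cast
          rw [div_mul_eq_mul_div, div_le_iff₀ (by positivity)]
          nlinarith
  set V : ℝ := 3 * C * (X ^ ε' * X ^ (β + ε')) / μ ^ (2 * s) with hV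
  have h6 : volume F ≤ ENNReal.ofReal V := by
    refine h5.trans (ENNReal.ofReal_le_ofReal ?_)
    have a0 : (((j + 2 : ℤ)) : ℝ) - (((j - 1 : ℤ)) : ℝ) = 3 := by push_cast; ring
    rw [a0, hV]
    apply div_le_div_of_nonneg_right _ (by positivity)
    calc 3 * ((2 + Real.log X) ^ (2 * s) * (H s k (2 ^ i) : ℝ))
        ≤ 3 * (X ^ ε' * (C * X ^ (β + ε'))) := by
          gcongr
      _ = _ := by ring
  obtain ⟨S, hS1, hS2⟩ := S_COV_t (BF k ξ θ j i) F δ V (j : ℝ) ((j : ℝ) + 1) hδ0 (by positivity)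
    (fun x hx => hx.1) key2 h6
  refine ⟨S, hS1.trans ?_, hS2⟩
  have h7 : V / δ = (3 * C * ((2 : ℝ) ^ θ * c2) ^ (2 * s)) * X ^ (β + k - 2 * s * θ + 2 * ε') := by
    have e1 : μ ^ (2 * s) = X ^ (2 * s * θ) / ((2 : ℝ) ^ θ * c2) ^ (2 * s) := by
      rw [hμ, div_pow, ← Real.rpow_natCast (X ^ θ), ← Real.rpow_mul hX0.le]
      congr 2
      push_cast
      ring
    have e2 : X ^ (β + k - 2 * s * θ + 2 * ε') =
        X ^ ε' * X ^ (β + ε') / X ^ (2 * s * θ) / X ^ (-(k : ℝ)) := by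
      rw [← Real.rpow_add hX0, ← Real.rpow_sub hX0, ← Real.rpow_sub hX0]
      congr 1
      ring
    rw [hV, e2, e1, hδ]
    field_simp
  rw [h7]
  calc (3 * C * ((2 : ℝ) ^ θ * c2) ^ (2 * s)) * X ^ (β + k - 2 * s * θ + 2 * ε')
      ≤ X ^ ε' * X ^ (β + k - 2 * s * θ + 2 * ε') :=
        mul_le_mul_of_nonneg_right g3 (by positivity)
    _ = X ^ (β + k - 2 * s * θ + 3 * ε') := by
        rw [← Real.rpow_add hX0]
        congr 1
        ring

theorem bad_subF (k : ℕ) (η ε ξ : ℝ) (hη : 0 ≤ η) (hη1 : η ≤ 1) (hε : 0 ≤ ε) (t : ℝ)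
    (ht : ¬ ∃ C : ℝ, HoldsP k η ε C (t, ξ)) : ∀ i1 : ℕ, ∃ i : ℕ, i1 ≤ i ∧ t ∈ BF k ξ (1 - η + ε) ⌊t⌋ i := by
  intro i1
  obtain ⟨i, hi, h⟩ := bad_subP k η ε hη hη1 hε (t, ξ) ht i1
  refine ⟨i, hi, ⟨h.1.1.1, h.1.1.2⟩, ?_⟩
  obtain ⟨M, h1, h2, h3⟩ := h.2
  exact ⟨M, h1, h2, h3⟩

theorem dim_genF (s k : ℕ) (ξ β η ε : ℝ) (hk : 1 ≤ k) (hη : 0 ≤ η) (hη1 : η ≤ 1)
    (hε : 0 ≤ ε) (hM : Ho s k β) :
    dimH {t : ℝ | ¬ ∃ C : ℝ, HoldsP k η ε C (t, ξ)} ≤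
      ENNReal.ofReal ((β + k - 2 * s * (1 - η + ε)) / k) := by
  set A : ℝ := β + k - 2 * s * (1 - η + ε) with hA
  have hk0 : (0 : ℝ) < k := by
    have : (1 : ℝ) ≤ k := by exact_mod_cast hk
    linarith
  have hsub : {t : ℝ | ¬ ∃ C : ℝ, HoldsP k η ε C (t, ξ)} ⊆
      ⋃ j : ℤ, {t : ℝ | ∀ i1 : ℕ, ∃ i : ℕ, i1 ≤ i ∧ t ∈ BF k ξ (1 - η + ε) j i} := by
    intro t ht
    rw [Set.mem_iUnion]
    exact ⟨⌊t⌋, bad_subF k η ε ξ hη hη1 hε t ht⟩
  have hfin : ENNReal.ofReal (max (A / k) 0) ≤ ENNReal.ofReal (A / k) := by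
    rw [ENNReal.ofReal_max, ENNReal.ofReal_zero, max_eq_left zero_le]
  refine le_trans ?_ hfin
  refine (dimH_mono hsub).trans ?_
  rw [dimH_iUnion]
  apply iSup_le
  intro j
  apply ENNReal.le_of_forall_pos_le_add
  intro ρ hρ _
  have hρ' : (0 : ℝ) < (ρ : ℝ) := by exact_mod_cast hρ
  set D : ℝ := max (A / k) 0 + ρ with hD
  have hD0 : 0 < D := by
    have := le_max_right (A / k) 0
    rw [hD]; linarith
  set ε' : ℝ := k * ρ / 6 with hε'def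
  have hε' : 0 < ε' := by positivity
  have h1 := S_DIMG_t (A + 3 * ε') k D (BF k ξ (1 - η + ε) j) hk0 hD0
    (by
      have h2 := le_max_left (A / k) 0
      have h3 : 3 * ε' = k * ρ / 2 := by
        rw [hε'def]
        ring
      have h4 : A ≤ k * max (A / k) 0 := by
        calc A = k * (A / k) := by field_simp
          _ ≤ _ := mul_le_mul_of_nonneg_left h2 hk0.le
      rw [h3, hD, mul_add]
      have h5 : 0 < (k : ℝ) * ρ := by positivity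
      linarith)
    (coverF s k ξ β (1 - η + ε) (by linarith) hM ε' hε' j)
  refine h1.trans (le_of_eq ?_)
  rw [hD, ENNReal.ofReal_add (le_max_right _ _) hρ'.le, ENNReal.ofReal_coe_nnreal]

theorem dim_F (k j : ℕ) (hj : 1 ≤ j) (hjk : j ≤ k) (ξ η ε : ℝ) (hη : 0 ≤ η) (hη1 : η ≤ 1) (hε : 0 ≤ ε) :
    dimH {t : ℝ | ¬ ∃ C : ℝ, HoldsP k η ε C (t, ξ)} ≤
      ENNReal.ofReal (1 - (j - 2 ^ j * (η - ε)) / k) := by
  have h := dim_genF (2 ^ (j - 1)) k ξ _ η ε (by omega) hη hη1 hε (Ho_main k j hj hjk)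
  refine h.trans (le_of_eq ?_)
  congr 1
  have hk0 : (k : ℝ) ≠ 0 := by
    have : k ≠ 0 := by omega
    exact_mod_cast this
  have hp : 2 * 2 ^ (j - 1) = 2 ^ j := by
    rw [← pow_succ']
    congr 1
    omega
  have hpr : 2 * (2 : ℝ) ^ (j - 1) = 2 ^ j := by exact_mod_cast hp
  rw [← hpr]
  push_cast
  field_simp
  ring

end Pool.Agent.X17.HW
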