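import Pool.Agent.TH181.MW.HuaB
import Pool.Agent.TH181.MW.Max
import Pool.Agent.W225.MWDIO

/-! # Hua's inequality for the pair of degrees `1, k`: one step -/

set_option autoImplicit false

open Finset MeasureTheory

namespace Pool.Agent.X17.HW

open Pool.Agent.W928.MW (e sm e_add e_norm e_sub_re e_cont sm_le)
open Pool.Agent.TH181.MW

/-- Parseval at the points `b / K` -/
theorem parseval (n K : ℕ) (hK : 1 ≤ K) (hn : n ≤ K) (c : ℕ → ℂ) :
    ∑ b ∈ range K, ‖∑ m ∈ range n, e ((b : ℝ) / K * m) * c m‖ ^ 2 =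
      (K : ℝ) * ∑ m ∈ range n, ‖c m‖ ^ 2 := by
  have key : ∀ m ∈ range n, ∀ m' ∈ range n,
      ∑ b ∈ range K, e (((m : ℝ) - m') / K * b) = if m' = m then (K : ℂ) else 0 := by
    intro m hm m' hm'
    rw [Finset.mem_range] at hm hm'
    have h := orth K hK (m + 1) (m' + 1) (by rw [Finset.mem_Icc]; omega)
      (by rw [Finset.mem_Icc]; omega)
    have h2 : ((m + 1 : ℕ) : ℝ) - ((m' + 1 : ℕ) : ℝ) = (m : ℝ) - m' := by push_cast; ring
    rw [h2] at h
    rw [h]
    simp only [Nat.add_right_cancel_iff]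
  have h1 : ∀ b ∈ range K, ((‖∑ m ∈ range n, e ((b : ℝ) / K * m) * c m‖ ^ 2 : ℝ) : ℂ) =
      ∑ m ∈ range n, ∑ m' ∈ range n,
        (c m * (starRingEnd ℂ) (c m')) * e (((m : ℝ) - m') / K * b) := by
    intro b _
    have h2 : ∀ z : ℂ, ((‖z‖ ^ 2 : ℝ) : ℂ) = z * (starRingEnd ℂ) z := by
      intro z
      rw [Complex.mul_conj, Complex.normSq_eq_norm_sq]
    rw [h2, map_sum, Finset.sum_mul_sum]
    apply Finset.sum_congr rfl
    intro m _
    apply Finset.sum_congr rfl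
    intro m' _
    rw [map_mul, e_conj]
    have h3 : e ((b : ℝ) / K * m) * c m * (e (-((b : ℝ) / K * m')) * (starRingEnd ℂ) (c m')) =
        (c m * (starRingEnd ℂ) (c m')) * (e ((b : ℝ) / K * m) * e (-((b : ℝ) / K * m'))) := by ring
    rw [h3, ← e_add]
    congr 2
    ring
  have h4 : ((∑ b ∈ range K, ‖∑ m ∈ range n, e ((b : ℝ) / K * m) * c m‖ ^ 2 : ℝ) : ℂ) =
      (((K : ℝ) * ∑ m ∈ range n, ‖c m‖ ^ 2 : ℝ) : ℂ) := by
    rw [Complex.ofReal_sum, Finset.sum_congr rfl h1, Finset.sum_comm, Complex.ofReal_mul,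
      Complex.ofReal_sum, Finset.mul_sum]
    apply Finset.sum_congr rfl
    intro m hm
    rw [Finset.sum_comm]
    have h5 : ∀ m' ∈ range n, ∑ b ∈ range K,
        (c m * (starRingEnd ℂ) (c m')) * e (((m : ℝ) - m') / K * b) =
        if m' = m then (c m * (starRingEnd ℂ) (c m')) * (K : ℂ) else 0 := by
      intro m' hm'
      rw [← Finset.mul_sum, key m hm m' hm']
      split_ifs <;> simp
    rw [Finset.sum_congr rfl h5, Finset.sum_ite_eq' (range n) m, if_pos hm, Complex.mul_conj,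
      Complex.normSq_eq_norm_sq]
    push_cast
    ring
  exact_mod_cast h4

/-- if `‖sm‖ ^ (2 r) ≤ W` for all `ξ` then `Q (s + r) ≤ W Q s` -/
theorem Q_step (s r k N : ℕ) (t W : ℝ) (hW : ∀ ξ : ℝ, ‖sm k N t ξ‖ ^ (2 * r) ≤ W) :
    Q (s + r) k N t ≤ W * Q s k N t := by
  set K : ℕ := (s + r) * N + 1 with hKdef
  have hK1 : 1 ≤ K := by omega
  have hK0 : (0 : ℝ) < K := by exact_mod_cast hK1
  have hsK : s * N + 1 ≤ K := by
    have : s * N ≤ (s + r) * N := by nlinarith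
    omega
  have hp1 := parseval ((s + r) * N + 1) K hK1 le_rfl (fun m => p (s + r) k N m t)
  have hp2 := parseval (s * N + 1) K hK1 hsK (fun m => p s k N m t)
  have h1 : ∀ b ∈ range K, ‖∑ m ∈ range ((s + r) * N + 1), e ((b : ℝ) / K * m) * p (s + r) k N m t‖ ^ 2 =
      ‖sm k N t ((b : ℝ) / K)‖ ^ (2 * r) * ‖sm k N t ((b : ℝ) / K)‖ ^ (2 * s) := by
    intro b _
    rw [← sm_pow, norm_pow, ← pow_mul, ← pow_add]
    congr 1
    ring
  have h2 : ∀ b ∈ range K, ‖∑ m ∈ range (s * N + 1), e ((b : ℝ) / K * m) * p s k N m t‖ ^ 2 =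
      ‖sm k N t ((b : ℝ) / K)‖ ^ (2 * s) := by
    intro b _
    rw [← sm_pow, norm_pow, ← pow_mul]
    congr 1
    ring
  rw [Finset.sum_congr rfl h1] at hp1
  rw [Finset.sum_congr rfl h2] at hp2
  have h3 : (K : ℝ) * Q (s + r) k N t ≤ K * (W * Q s k N t) := by
    have h4 : (K : ℝ) * (W * Q s k N t) = W * ((K : ℝ) * Q s k N t) := by ring
    rw [h4]
    unfold Q
    rw [← hp1, ← hp2, Finset.mul_sum]
    apply Finset.sum_le_sum
    intro b _
    exact mul_le_mul_of_nonneg_right (hW _) (by positivity)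
  exact le_of_mul_le_mul_left h3 hK0

theorem e_re (x : ℝ) : (e x).re = Real.cos (2 * Real.pi * x) := by
  unfold Pool.Agent.W928.MW.e
  have h : 2 * (Real.pi : ℂ) * Complex.I * (x : ℂ) = ((2 * Real.pi * x : ℝ) : ℂ) * Complex.I := by
    push_cast; ring
  rw [h, Complex.exp_ofReal_mul_I_re]

theorem TT_re (k N j : ℕ) (hj : 2 ≤ j) (t ξ : ℝ) :
    (∑ l ∈ LS (Icc (-(N : ℤ)) N) j, TT k N t ξ l).re =
      ∑ z ∈ Lam N j, Real.cos (2 * Real.pi * (t * ((ph (fun n => n ^ k) z.1 z.2 : ℤ) : ℝ))) := by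
  unfold Lam
  rw [Finset.sum_sigma, Complex.re_sum]
  apply Finset.sum_congr rfl
  intro l hl
  rw [mem_LS] at hl
  unfold TT
  rw [Complex.re_sum]
  apply Finset.sum_congr rfl
  intro n _
  rw [ph_id l (by omega) n, e_re]
  congr 2
  simp

/-- pairs of tuples with the same sum -/
def EE (s N : ℕ) : Finset ((Fin s → ℕ) × (Fin s → ℕ)) :=
  ((tup s N) ×ˢ (tup s N)).filter (fun z => ∑ i, z.1 i = ∑ i, z.2 i)

def dl (k : ℕ) {s : ℕ} (z : (Fin s → ℕ) × (Fin s → ℕ)) : ℤ :=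
  ((∑ i, z.1 i ^ k : ℕ) : ℤ) - ((∑ i, z.2 i ^ k : ℕ) : ℤ)

theorem Q_cos (s k N : ℕ) (t : ℝ) :
    Q s k N t = ∑ z ∈ EE s N, Real.cos (2 * Real.pi * (t * ((dl k z : ℤ) : ℝ))) := by
  classical
  unfold Q
  rw [← Finset.sum_fiberwise_of_maps_to (s := EE s N) (t := range (s * N + 1))
    (g := fun z : (Fin s → ℕ) × (Fin s → ℕ) => ∑ i, z.1 i)]
  · apply Finset.sum_congr rfl
    intro m _
    rw [p_sq, ← Finset.sum_product']
    have h1 : (EE s N).filter (fun z => ∑ i, z.1 i = m) = (prs s N m) ×ˢ (prs s N m) := by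
      ext z
      simp only [EE, prs, Finset.mem_filter, Finset.mem_product]
      constructor
      · rintro ⟨⟨⟨a1, a2⟩, b⟩, c⟩
        exact ⟨⟨a1, c⟩, a2, b ▸ c⟩
      · rintro ⟨⟨a1, c⟩, a2, d⟩
        exact ⟨⟨⟨a1, a2⟩, c.trans d.symm⟩, c⟩
    rw [h1]
    apply Finset.sum_congr rfl
    intro z _
    unfold dl
    push_cast
    rfl
  · intro z hz
    rw [EE, Finset.mem_filter, Finset.mem_product] at hz
    have := tup_sum_le s N z.1 hz.1.1
    rw [Finset.mem_range]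
    omega

theorem J_eq (s k N : ℕ) : J s k N = ((EE s N).filter (fun z => dl k z = 0)).card := by
  unfold J EE
  rw [Finset.filter_filter]
  congr 1
  apply Finset.filter_congr
  intro z _
  unfold dl
  rw [sub_eq_zero]
  norm_cast

theorem int_two (a b : ℤ) :
    ∫ t in (0 : ℝ)..1, Real.cos (2 * Real.pi * (t * (a : ℝ))) * Real.cos (2 * Real.pi * (t * (b : ℝ))) =
      ((if a = b then 1 else 0) + (if a = -b then 1 else 0)) / 2 := by
  have h1 : ∀ t : ℝ, Real.cos (2 * Real.pi * (t * (a : ℝ))) * Real.cos (2 * Real.pi * (t * (b : ℝ))) =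
      (1 / 2) * (Real.cos (2 * Real.pi * (t * ((a - b : ℤ) : ℝ))) +
        Real.cos (2 * Real.pi * (t * ((a + b : ℤ) : ℝ)))) := by
    intro t
    have e1 : 2 * Real.pi * (t * ((a - b : ℤ) : ℝ)) =
      2 * Real.pi * (t * (a : ℝ)) - 2 * Real.pi * (t * (b : ℝ)) := by push_cast; ring
    have e2 : 2 * Real.pi * (t * ((a + b : ℤ) : ℝ)) =
      2 * Real.pi * (t * (a : ℝ)) + 2 * Real.pi * (t * (b : ℝ)) := by push_cast; ring
    rw [e1, e2, Real.cos_sub, Real.cos_add]
    ring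
  simp_rw [h1]
  rw [intervalIntegral.integral_const_mul, intervalIntegral.integral_add]
  · have h2 := int_cos 0 1 (a - b)
    have h3 := int_cos 0 1 (a + b)
    simp only [Int.cast_zero, Int.cast_one, sub_zero] at h2 h3
    rw [h2, h3]
    have e1 : (a - b = 0) ↔ (a = b) := sub_eq_zero
    have e2 : (a + b = 0) ↔ (a = -b) := by omega
    simp only [e1, e2]
    ring
  · apply Continuous.intervalIntegrable; fun_prop
  · apply Continuous.intervalIntegrable; fun_prop

/-- one step of Hua's inequality -/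
theorem J_step (s r k N j D : ℕ) (hj : 2 ≤ j) (hjk : j < k) (hs : 2 * r = 2 ^ j)
    (hD : ∀ z ∈ EE s N, dl k z ≠ 0 → (dl k z).natAbs.divisors.card ≤ D) :
    (J (s + r) k N : ℝ) ≤ (2 * (N : ℝ) + 1) ^ (2 ^ j - j - 1) *
      ((((j + k) * (2 * N + 1) ^ j : ℕ) : ℝ) * (J s k N : ℝ) +
        (((2 * D) ^ j * k : ℕ) : ℝ) * ((EE s N).card : ℝ)) := by
  classical
  obtain ⟨j', rfl⟩ : ∃ j', j = j' + 1 := ⟨j - 1, by omega⟩
  set B : ℝ := (2 * (N : ℝ) + 1) ^ (2 ^ (j' + 1) - (j' + 1) - 1) with hB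
  have hB0 : 0 ≤ B := by positivity
  set S : ℝ → ℝ := fun t => ∑ z ∈ Lam N (j' + 1),
    Real.cos (2 * Real.pi * (t * ((ph (fun n => n ^ k) z.1 z.2 : ℤ) : ℝ))) with hS
  have h1 : ∀ t : ℝ, Q (s + r) k N t ≤ B * S t * Q s k N t := by
    intro t
    apply Q_step
    intro ξ
    rw [hs, hS]
    have h2 := weyl' k N j' t ξ
    rw [TT_re k N (j' + 1) hj] at h2
    exact h2
  have hc : Continuous S := by
    rw [hS]; fun_prop
  have h2 : ∫ t in (0 : ℝ)..1, Q (s + r) k N t = (J (s + r) k N : ℝ) := by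
    have := int_Q (s + r) k N 0 1
    simpa using this
  have h3 : ∫ t in (0 : ℝ)..1, Q (s + r) k N t ≤ ∫ t in (0 : ℝ)..1, B * S t * Q s k N t := by
    apply intervalIntegral.integral_mono_on (by norm_num)
    · exact (Q_cont _ _ _).intervalIntegrable _ _
    · apply Continuous.intervalIntegrable
      exact (continuous_const.mul hc).mul (Q_cont _ _ _)
    · intro t _
      exact h1 t
  have h4 : ∫ t in (0 : ℝ)..1, B * S t * Q s k N t =
      B * ∑ z ∈ EE s N, ∑ y ∈ Lam N (j' + 1),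
        ((if ph (fun n => n ^ k) y.1 y.2 = dl k z then (1 : ℝ) else 0) +
          (if ph (fun n => n ^ k) y.1 y.2 = -dl k z then 1 else 0)) / 2 := by
    have h5 : ∀ t : ℝ, B * S t * Q s k N t = B * ∑ z ∈ EE s N, ∑ y ∈ Lam N (j' + 1),
        Real.cos (2 * Real.pi * (t * ((ph (fun n => n ^ k) y.1 y.2 : ℤ) : ℝ))) *
          Real.cos (2 * Real.pi * (t * ((dl k z : ℤ) : ℝ))) := by
      intro t
      rw [Q_cos, hS, mul_assoc, Finset.sum_mul_sum, Finset.sum_comm]
    simp_rw [h5]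
    rw [intervalIntegral.integral_const_mul, intervalIntegral.integral_finsetSum]
    · congr 1
      apply Finset.sum_congr rfl
      intro z _
      rw [intervalIntegral.integral_finsetSum]
      · apply Finset.sum_congr rfl
        intro y _
        exact int_two _ _
      · intro y _
        apply Continuous.intervalIntegrable; fun_prop
    · intro z _
      apply Continuous.intervalIntegrable; fun_prop
  rw [h2, h4] at h3
  refine h3.trans (mul_le_mul_of_nonneg_left ?_ hB0)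
  -- the count
  have h6 : ∀ z ∈ EE s N, ∑ y ∈ Lam N (j' + 1),
        ((if ph (fun n => n ^ k) y.1 y.2 = dl k z then (1 : ℝ) else 0) +
          (if ph (fun n => n ^ k) y.1 y.2 = -dl k z then 1 else 0)) / 2 ≤
      (if dl k z = 0 then ((((j' + 1) + k) * (2 * N + 1) ^ (j' + 1) : ℕ) : ℝ) else 0) +
        (((2 * D) ^ (j' + 1) * k : ℕ) : ℝ) := by
    intro z hz
    rw [← Finset.sum_div, Finset.sum_add_distrib, ← Finset.natCast_card_filter,
      ← Finset.natCast_card_filter]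
    split_ifs with h0
    · rw [h0, neg_zero]
      have h7 := Lam_zero k N (j' + 1) hjk
      have h8 : (((Lam N (j' + 1)).filter (fun z => ph (fun n => n ^ k) z.1 z.2 = 0)).card : ℝ) ≤
        ((((j' + 1) + k) * (2 * N + 1) ^ (j' + 1) : ℕ) : ℝ) := by exact_mod_cast h7
      have h9 : (0 : ℝ) ≤ (((2 * D) ^ (j' + 1) * k : ℕ) : ℝ) := by positivity
      linarith
    · have h7 := Lam_nonzero k N (j' + 1) D hjk (dl k z) h0 (hD z hz h0)
      have h8 := Lam_nonzero k N (j' + 1) D hjk (-dl k z) (neg_ne_zero.mpr h0)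
        (by rw [Int.natAbs_neg]; exact hD z hz h0)
      have h7' : (((Lam N (j' + 1)).filter (fun y => ph (fun n => n ^ k) y.1 y.2 = dl k z)).card : ℝ) ≤
        (((2 * D) ^ (j' + 1) * k : ℕ) : ℝ) := by exact_mod_cast h7
      have h8' : (((Lam N (j' + 1)).filter (fun y => ph (fun n => n ^ k) y.1 y.2 = -dl k z)).card : ℝ) ≤
        (((2 * D) ^ (j' + 1) * k : ℕ) : ℝ) := by exact_mod_cast h8
      linarith
  refine (Finset.sum_le_sum h6).trans (le_of_eq ?_)
  rw [Finset.sum_add_distrib, ← Finset.sum_filter, Finset.sum_const, Finset.sum_const, J_eq]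
  simp only [nsmul_eq_mul]
  ring

end Pool.Agent.X17.HW
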